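import Mathlib

open Cardinal Order Set

universe u

namespace Pool.Agent.Results.MP_279ba3_co.ColoringNumberStep

/-- The colouring number of a graph: the least cardinal `κ` such that some well-ordering of the
vertices has the property that every vertex has fewer than `κ` smaller neighbours. -/
noncomputable def col {V : Type u} (G : SimpleGraph V) : Cardinal.{u} :=
  sInf {κ : Cardinal.{u} | ∃ r : V → V → Prop, IsWellOrder V r ∧
    ∀ x : V, #{y : V // G.Adj x y ∧ r y x} < κ}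

section

variable {V : Type u}

/-- relative freeness -/
def Free (H : SimpleGraph V) (A C : Set V) (t : ℕ) : Prop :=
  ∃ ρ : V → Ordinal.{u}, Function.Injective ρ ∧
    ∀ v ∈ C, {w | H.Adj v w ∧ (w ∈ A ∨ (w ∈ C ∧ ρ w < ρ v))}.encard ≤ t

theorem Free.mono {H H' : SimpleGraph V} {A A' C C' : Set V} {t t' : ℕ} (h : Free H A C t)
    (hH : ∀ v ∈ C', ∀ w, H'.Adj v w → (w ∈ A' ∨ w ∈ C') → H.Adj v w)
    (hA : A' ⊆ A) (hC : C' ⊆ C) (ht : t ≤ t') : Free H' A' C' t' := by
  obtain ⟨ρ, hρ, h⟩ := h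
  refine ⟨ρ, hρ, fun v hv => ?_⟩
  refine (Set.encard_le_encard ?_).trans ((h v (hC hv)).trans (by exact_mod_cast ht))
  rintro w ⟨h1, h2⟩
  refine ⟨hH v hv w h1 (h2.imp id And.left), ?_⟩
  rcases h2 with h2 | ⟨h2, h3⟩
  · exact Or.inl (hA h2)
  · exact Or.inr ⟨hC h2, h3⟩

theorem Free.closed {H : SimpleGraph V} {A B C : Set V} {t : ℕ} {ρ : V → Ordinal.{u}}
    (hρ : Function.Injective ρ)
    (h : ∀ v ∈ C, {w | H.Adj v w ∧ (w ∈ A ∨ (w ∈ C ∧ ρ w < ρ v))}.encard ≤ t)
    (hBC : B ⊆ C) (hcl : ∀ v ∈ B, ∀ w ∈ C, H.Adj v w → ρ w < ρ v → w ∈ B) :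
    Free H (A ∪ B) (C \ B) t := by
  refine ⟨ρ, hρ, fun v hv => (Set.encard_le_encard ?_).trans (h v hv.1)⟩
  rintro w ⟨h1, h2⟩
  refine ⟨h1, ?_⟩
  rcases h2 with (h2 | h2) | ⟨h2, h3⟩
  · exact Or.inl h2
  · right
    refine ⟨hBC h2, ?_⟩
    rcases lt_trichotomy (ρ w) (ρ v) with h4 | h4 | h4
    · exact h4
    · exact absurd (hρ h4) h1.ne'
    · exact absurd (hcl w h2 v hv.1 h1.symm h4) hv.2
  · exact Or.inr ⟨h2.1, h3⟩

theorem exists_lex (β : V → Ordinal.{u}) (ρ : Ordinal.{u} → V → Ordinal.{u}) :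
    ∃ σ : V → Ordinal.{u}, ∀ v w,
      σ v < σ w ↔ β v < β w ∨ (β v = β w ∧ ρ (β w) v < ρ (β w) w) := by
  classical
  let L : Ordinal.{u} := ⨆ v : V, succ (ρ (β v) v)
  have hL : ∀ v, ρ (β v) v < L := fun v =>
    (lt_succ _).trans_le (le_ciSup (f := fun v : V => succ (ρ (β v) v))
      Ordinal.bddAbove_of_small v)
  refine ⟨fun v => L * β v + ρ (β v) v, fun v w => ?_⟩
  have key : ∀ v w, β v < β w → L * β v + ρ (β v) v < L * β w + ρ (β w) w := by
    intro v w h
    calc L * β v + ρ (β v) v < L * β v + L := by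
            exact (add_lt_add_iff_left _).2 (hL v)
      _ = L * succ (β v) := by rw [Ordinal.mul_succ]
      _ ≤ L * β w := by gcongr; exact succ_le_of_lt h
      _ ≤ L * β w + ρ (β w) w := le_self_add
  constructor
  · intro h
    rcases lt_trichotomy (β v) (β w) with h1 | h1 | h1
    · exact Or.inl h1
    · right
      refine ⟨h1, ?_⟩
      simp only [h1] at h
      exact (add_lt_add_iff_left _).1 h
    · exact absurd (key w v h1) (not_lt.2 h.le)
  · rintro (h | ⟨h1, h2⟩)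
    · exact key v w h
    · simp only [h1]
      exact (add_lt_add_iff_left _).2 h2

theorem exists_lex' (β : V → Ordinal.{u}) (ρ : Ordinal.{u} → V → Ordinal.{u})
    (hρ : ∀ i, Function.Injective (ρ i)) :
    ∃ σ : V → Ordinal.{u}, Function.Injective σ ∧ ∀ v w,
      σ v < σ w ↔ β v < β w ∨ (β v = β w ∧ ρ (β w) v < ρ (β w) w) := by
  obtain ⟨σ, hσ⟩ := exists_lex β ρ
  refine ⟨σ, fun v w h => ?_, hσ⟩
  have h1 : ¬ (σ v < σ w) := by rw [h]; exact lt_irrefl _
  have h2 : ¬ (σ w < σ v) := by rw [h]; exact lt_irrefl _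
  rw [hσ] at h1 h2
  push Not at h1 h2
  have h3 : β v = β w := le_antisymm h2.1 h1.1
  apply hρ (β w)
  have h4 := h1.2 h3
  have h5 := h2.2 h3.symm
  rw [h3] at h5
  exact le_antisymm h5 h4

theorem exists_inj (V : Type u) : ∃ ρ : V → Ordinal.{u}, Function.Injective ρ := by
  classical
  exact ⟨fun v => Ordinal.typein WellOrderingRel v, Ordinal.typein_injective _⟩

/-- blocks lemma -/
theorem Free.blocks {H : SimpleGraph V} {A C : Set V} {t : ℕ} (β : V → Ordinal.{u})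
    (h : ∀ i, Free H (A ∪ {w | w ∈ C ∧ β w < i}) {w | w ∈ C ∧ β w = i} t) : Free H A C t := by
  choose ρ hρ h using h
  obtain ⟨σ, hσi, hσ⟩ := exists_lex' β ρ hρ
  refine ⟨σ, hσi, fun v hv => (Set.encard_le_encard ?_).trans (h (β v) v ⟨hv, rfl⟩)⟩
  rintro w ⟨h1, h2⟩
  refine ⟨h1, ?_⟩
  rcases h2 with h2 | ⟨h2, h3⟩
  · exact Or.inl (Or.inl h2)
  · rw [hσ] at h3
    rcases h3 with h3 | ⟨h3, h4⟩
    · exact Or.inl (Or.inr ⟨h2, h3⟩)
    · exact Or.inr ⟨⟨h2, h3⟩, h4⟩

theorem free_of_isolated {H : SimpleGraph V} {A C : Set V} {t : ℕ}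
    (h : ∀ v ∈ C, ∀ w, H.Adj v w → w ∉ A ∧ w ∉ C) : Free H A C t := by
  obtain ⟨ρ, hρ⟩ := exists_inj V
  refine ⟨ρ, hρ, fun v hv => ?_⟩
  have : {w | H.Adj v w ∧ (w ∈ A ∨ (w ∈ C ∧ ρ w < ρ v))} = ∅ := by
    ext w
    simp only [mem_ofPred_eq, mem_empty_iff_false, iff_false]
    rintro ⟨h1, h2 | ⟨h2, -⟩⟩
    · exact (h v hv w h1).1 h2
    · exact (h v hv w h1).2 h2
  rw [this]
  simp

/-- gluing lemma -/
theorem glue {G : SimpleGraph V} {A C : Set V} {t : ℕ} (hAC : Disjoint A C)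
    (β : V → Ordinal.{u}) (I : Set Ordinal.{u}) (K : Ordinal.{u} → SimpleGraph V)
    (hK : ∀ i ∈ I, K i ≤ G)
    (hF : ∀ i ∈ I, Free (K i) (A ∪ {w | w ∈ C ∧ β w < i}) {w | w ∈ C ∧ β w = i} t) :
    ∃ H : SimpleGraph V, H ≤ G ∧ Free H A C t ∧
      ∀ v ∈ C, ∀ w, (w ∈ A ∨ (w ∈ C ∧ β w ≤ β v)) → (H.Adj v w ↔ β v ∈ I ∧ (K (β v)).Adj v w) := by
  let P : V → V → Prop := fun v w => v ∈ C ∧ β v ∈ I ∧ (K (β v)).Adj v w ∧
    (w ∈ A ∨ (w ∈ C ∧ β w ≤ β v))
  let H : SimpleGraph V :=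
    { Adj := fun v w => P v w ∨ P w v
      symm := ⟨fun v w h => h.symm⟩
      loopless := ⟨fun v h => by rcases h with h | h <;> exact (K _).loopless.irrefl v h.2.2.1⟩ }
  have hadj : ∀ v ∈ C, ∀ w, (w ∈ A ∨ (w ∈ C ∧ β w ≤ β v)) →
      (H.Adj v w ↔ β v ∈ I ∧ (K (β v)).Adj v w) := by
    intro v hv w hw
    constructor
    · rintro (h | h)
      · exact ⟨h.2.1, h.2.2.1⟩
      · obtain ⟨h1, h2, h3, h4⟩ := h
        have h5 : β v ≤ β w := by
          rcases h4 with h4 | h4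
          · exact absurd hv (Set.disjoint_left.1 hAC h4)
          · exact h4.2
        have h6 : β w ≤ β v := by
          rcases hw with h4 | h4
          · exact absurd h1 (Set.disjoint_left.1 hAC h4)
          · exact h4.2
        have h7 : β w = β v := le_antisymm h6 h5
        rw [h7] at h2 h3
        exact ⟨h2, h3.symm⟩
    · rintro ⟨h1, h2⟩
      exact Or.inl ⟨hv, h1, h2, hw⟩
  refine ⟨H, ?_, ?_, hadj⟩
  · intro v w h
    rcases h with h | h
    · exact hK _ h.2.1 h.2.2.1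
    · exact (hK _ h.2.1 h.2.2.1).symm
  · apply Free.blocks β
    intro i
    by_cases hi : i ∈ I
    · refine (hF i hi).mono ?_ subset_rfl subset_rfl le_rfl
      rintro v ⟨hv, rfl⟩ w hvw hw
      have : w ∈ A ∨ (w ∈ C ∧ β w ≤ β v) := by
        rcases hw with (hw | hw) | hw
        · exact Or.inl hw
        · exact Or.inr ⟨hw.1, hw.2.le⟩
        · exact Or.inr ⟨hw.1, hw.2.le⟩
      exact ((hadj v hv w this).1 hvw).2
    · apply free_of_isolated
      rintro v ⟨hv, rfl⟩ w hvw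
      constructor
      · intro hw
        have : w ∈ A ∨ (w ∈ C ∧ β w ≤ β v) := by
          rcases hw with hw | hw
          · exact Or.inl hw
          · exact Or.inr ⟨hw.1, hw.2.le⟩
        exact hi ((hadj v hv w this).1 hvw).1
      · intro hw
        exact hi ((hadj v hv w (Or.inr ⟨hw.1, hw.2.le⟩)).1 hvw).1

/-- finite obstacle -/
def Obst (H : SimpleGraph V) (A Z : Set V) (t : ℕ) : Prop :=
  Z.Nonempty ∧ Z.Finite ∧ ∀ z ∈ Z, ((t + 1 : ℕ) : ℕ∞) ≤ {w | H.Adj z w ∧ (w ∈ A ∨ w ∈ Z)}.encard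

theorem free_of_no_obst {H : SimpleGraph V} {A : Set V} {t : ℕ} :
    ∀ n : ℕ, ∀ C : Set V, C.Finite → C.ncard = n → (∀ Z, Z ⊆ C → ¬ Obst H A Z t) → Free H A C t := by
  intro n
  induction n with
  | zero =>
    intro C hC hn _
    rw [Set.ncard_eq_zero hC] at hn
    subst hn
    exact free_of_isolated (by simp)
  | succ n ih =>
    intro C hC hn hO
    have hne : C.Nonempty := by
      rw [Set.nonempty_iff_ne_empty]
      rintro rfl
      simp at hn
    have h1 := hO C subset_rfl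
    unfold Obst at h1
    push Not at h1
    obtain ⟨z, hz, hlt⟩ := h1 hne hC
    have hle : {w | H.Adj z w ∧ (w ∈ A ∨ w ∈ C)}.encard ≤ t := by
      push_cast at hlt
      exact Order.lt_add_one_iff_of_not_isMax (by simp) |>.1 hlt
    have hfree : Free H A (C \ {z}) t := by
      apply ih (C \ {z}) hC.sdiff
      · rw [Set.ncard_sdiff_singleton_of_mem hz, hn]; rfl
      · intro Z hZ
        exact hO Z (hZ.trans Set.sdiff_subset)
    classical
    apply Free.blocks (fun v => if v = z then 1 else 0)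
    intro i
    by_cases h0 : i = 0
    · subst h0
      refine hfree.mono (fun _ _ _ h _ => h) ?_ ?_ le_rfl
      · intro w hw
        rcases hw with hw | hw
        · exact hw
        · exact absurd hw.2 (by simp)
      · rintro w ⟨hw, hw2⟩
        refine ⟨hw, ?_⟩
        rintro rfl
        simp at hw2
    · by_cases h1 : i = 1
      · subst h1
        obtain ⟨ρ, hρ⟩ := exists_inj V
        refine ⟨ρ, hρ, ?_⟩
        rintro v ⟨hv, hv2⟩
        have : v = z := by
          by_contra hne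
          simp [hne] at hv2
        subst this
        refine (Set.encard_le_encard ?_).trans hle
        rintro w ⟨hw1, hw2⟩
        refine ⟨hw1, ?_⟩
        rcases hw2 with (hw2 | hw2) | hw2
        · exact Or.inl hw2
        · exact Or.inr hw2.1
        · exact Or.inr hw2.1.1
      · apply free_of_isolated
        rintro v ⟨hv, hv2⟩
        exfalso
        change (if v = z then (1 : Ordinal.{u}) else 0) = i at hv2
        split_ifs at hv2
        · exact h1 hv2.symm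
        · exact h0 hv2.symm

theorem exists_obst {H : SimpleGraph V} {A C : Set V} {t : ℕ} (hC : C.Finite)
    (h : ¬ Free H A C t) : ∃ Z, Z ⊆ C ∧ Obst H A Z t := by
  by_contra hcon
  push Not at hcon
  exact h (free_of_no_obst _ C hC rfl hcon)

theorem not_free_of_obst {H : SimpleGraph V} {A C Z : Set V} {t : ℕ} (hZ : Z ⊆ C)
    (h : Obst H A Z t) : ¬ Free H A C t := by
  rintro ⟨ρ, hρ, hF⟩
  obtain ⟨hne, hfin, hO⟩ := h
  obtain ⟨z, hz, hmax⟩ := Set.exists_max_image Z ρ hfin hne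
  have h1 := hO z hz
  have h2 := hF z (hZ hz)
  have h3 : {w | H.Adj z w ∧ (w ∈ A ∨ w ∈ Z)} ⊆
      {w | H.Adj z w ∧ (w ∈ A ∨ (w ∈ C ∧ ρ w < ρ z))} := by
    rintro w ⟨hw, hw2⟩
    refine ⟨hw, hw2.imp id fun hw2 => ⟨hZ hw2, lt_of_le_of_ne (hmax w hw2) ?_⟩⟩
    intro he
    exact hw.ne' (hρ he)
  have h4 := h1.trans ((Set.encard_le_encard h3).trans h2)
  norm_cast at h4
  omega

theorem exists_min_obst {G : SimpleGraph V} {A Z : Set V} {s : ℕ} (hAZ : Disjoint A Z)
    (h : Obst G A Z (s + 1)) :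
    ∃ H : SimpleGraph V, H ≤ G ∧ Obst H A Z s ∧ Free H A Z (s + 1) := by
  classical
  obtain ⟨hne, hfin, hO⟩ := h
  -- choose finitely many neighbours
  have hch : ∀ z : V, ∃ N : Finset V, (∀ w ∈ N, G.Adj z w ∧ (w ∈ A ∨ w ∈ Z)) ∧
      (z ∈ Z → s + 1 ≤ N.card) := by
    intro z
    by_cases hz : z ∈ Z
    · have h1 : ((s + 1 : ℕ) : ℕ∞) ≤ {w | G.Adj z w ∧ (w ∈ A ∨ w ∈ Z)}.encard := by
        refine le_trans ?_ (hO z hz)
        norm_cast
        omega
      obtain ⟨T, hT, hTc⟩ := Set.exists_subset_encard_eq h1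
      have hTf : T.Finite := Set.finite_of_encard_eq_coe hTc
      refine ⟨hTf.toFinset, ?_, ?_⟩
      · intro w hw
        rw [Set.Finite.mem_toFinset] at hw
        exact hT hw
      · intro _
        rw [← Set.ncard_eq_toFinset_card T hTf]
        have : T.ncard = s + 1 := by
          rw [Set.ncard_def, hTc]; rfl
        omega
    · exact ⟨∅, by simp, fun h => absurd h hz⟩
  choose N hN1 hN2 using hch
  let P : Finset (Sym2 V) → Prop := fun F =>
    (↑F : Set (Sym2 V)) ⊆ G.edgeSet ∧ Obst (SimpleGraph.fromEdgeSet (↑F : Set (Sym2 V))) A Z s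
  have hP : ∃ F, P F := by
    refine ⟨hfin.toFinset.biUnion fun z => (N z).image fun w => s(z, w), ?_, hne, hfin, ?_⟩
    · intro e he
      simp only [Finset.coe_biUnion, Set.mem_iUnion, Finset.coe_image, Set.mem_image] at he
      obtain ⟨z, hz, w, hw, rfl⟩ := he
      exact (hN1 z w hw).1
    · intro z hz
      have h1 : ((N z : Set V)).encard = (N z).card := Set.encard_coe_eq_coe_finsetCard _
      refine le_trans (b := ((N z : Set V)).encard) ?_ (Set.encard_le_encard ?_)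
      · rw [h1]
        exact_mod_cast hN2 z hz
      · intro w hw
        refine ⟨?_, (hN1 z w hw).2⟩
        rw [SimpleGraph.fromEdgeSet_adj]
        refine ⟨?_, (hN1 z w hw).1.ne⟩
        simp only [Finset.coe_biUnion, Set.mem_iUnion, Finset.coe_image, Set.mem_image]
        exact ⟨z, by simpa using hz, w, hw, rfl⟩
  obtain ⟨F, hF⟩ := exists_minimal_of_wellFoundedLT P hP
  refine ⟨SimpleGraph.fromEdgeSet (↑F : Set (Sym2 V)), ?_, hF.prop.2, ?_⟩
  · intro v w hvw
    rw [SimpleGraph.fromEdgeSet_adj] at hvw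
    exact hF.prop.1 hvw.1
  · by_contra hnf
    obtain ⟨Z', hZ', hO'⟩ := exists_obst hfin hnf
    obtain ⟨z, hz⟩ := hO'.1
    have h1 := hO'.2.2 z hz
    have h2 : {w | (SimpleGraph.fromEdgeSet (↑F : Set (Sym2 V))).Adj z w ∧ (w ∈ A ∨ w ∈ Z')}.Nonempty := by
      rw [← Set.encard_pos]
      refine lt_of_lt_of_le ?_ h1
      norm_cast
      omega
    obtain ⟨w, hw, hw2⟩ := h2
    rw [SimpleGraph.fromEdgeSet_adj] at hw
    have hmem : s(z, w) ∈ F := hw.1
    have hP' : P (F.erase s(z, w)) := by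
      refine ⟨?_, hne, hfin, ?_⟩
      · intro e he
        exact hF.prop.1 (Finset.mem_of_mem_erase he)
      · intro x hx
        by_cases hx' : x ∈ Z'
        · -- degree at least s+2
          have h3 := hO'.2.2 x hx'
          -- the other endpoint
          let y : V := if x = z then w else z
          have h4 : {w | (SimpleGraph.fromEdgeSet (↑F : Set (Sym2 V))).Adj x w ∧ (w ∈ A ∨ w ∈ Z')} \ {y}
              ⊆ {w' | (SimpleGraph.fromEdgeSet (↑(F.erase s(z, w)) : Set (Sym2 V))).Adj x w' ∧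
                  (w' ∈ A ∨ w' ∈ Z)} := by
            rintro v ⟨⟨hv1, hv2⟩, hv3⟩
            refine ⟨?_, hv2.imp id fun h => hZ' h⟩
            rw [SimpleGraph.fromEdgeSet_adj] at hv1 ⊢
            refine ⟨?_, hv1.2⟩
            rw [Finset.coe_erase]
            refine ⟨hv1.1, ?_⟩
            intro he
            rw [Set.mem_singleton_iff, Sym2.eq_iff] at he
            apply hv3
            rw [Set.mem_singleton_iff]
            simp only [y]
            rcases he with ⟨h5, h6⟩ | ⟨h5, h6⟩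
            · rw [if_pos h5]; exact h6
            · rw [h5, if_neg (fun h => hw.2 h.symm)]; exact h6
          refine le_trans ?_ (Set.encard_le_encard h4)
          have h5 := Set.encard_tsub_one_le_encard_sdiff_singleton
            {w | (SimpleGraph.fromEdgeSet (↑F : Set (Sym2 V))).Adj x w ∧ (w ∈ A ∨ w ∈ Z')} y
          refine le_trans ?_ h5
          refine le_trans ?_ (tsub_le_tsub_right h3 1)
          norm_cast
        · have h3 := hF.prop.2.2.2 x hx
          refine h3.trans (Set.encard_le_encard ?_)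
          rintro v ⟨hv1, hv2⟩
          refine ⟨?_, hv2⟩
          rw [SimpleGraph.fromEdgeSet_adj] at hv1 ⊢
          refine ⟨?_, hv1.2⟩
          rw [Finset.coe_erase]
          refine ⟨hv1.1, ?_⟩
          intro he
          rw [Set.mem_singleton_iff, Sym2.eq_iff] at he
          rcases he with ⟨h5, h6⟩ | ⟨h5, h6⟩
          · exact hx' (h5 ▸ hz)
          · rcases hw2 with h7 | h7
            · exact Set.disjoint_left.1 hAZ h7 (h5 ▸ hx)
            · exact hx' (h5 ▸ h7)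
    have h8 := hF.le_of_le hP' (Finset.erase_subset _ _)
    exact absurd (h8 hmem) (by simp)

/-- The conclusion: a subgraph which is exactly one step less. -/
def Good (G : SimpleGraph V) (A C : Set V) (s : ℕ) : Prop :=
  ∃ H : SimpleGraph V, H ≤ G ∧ Free H A C (s + 1) ∧ ¬ Free H A C s

theorem Good.extend {G : SimpleGraph V} {A C C' : Set V} {s : ℕ} (hAC : Disjoint A C)
    (hC : C' ⊆ C) (h : Good G A C' s) : Good G A C s := by
  classical
  obtain ⟨H', hH', hF, hnF⟩ := h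
  obtain ⟨H, hHG, hHF, hH⟩ := glue (G := G) (A := A) (C := C) (t := s + 1) hAC
    (fun v => if v ∈ C' then (0 : Ordinal.{u}) else 1) {0} (fun _ => H') (fun _ _ => hH') (by
      rintro i rfl
      refine hF.mono (fun _ _ _ h _ => h) ?_ ?_ le_rfl
      · rintro w (hw | hw)
        · exact hw
        · exact absurd hw.2 (by simp)
      · rintro w ⟨hw, hw2⟩
        by_contra hcon
        rw [if_neg hcon] at hw2
        simp at hw2)
  refine ⟨H, hHG, hHF, fun hcon => hnF ?_⟩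
  refine hcon.mono ?_ subset_rfl hC le_rfl
  intro v hv w hvw hw
  rw [hH v (hC hv) w]
  · refine ⟨?_, hvw⟩
    simp [hv]
  · refine hw.imp id fun hw => ⟨hC hw, ?_⟩
    simp [hv, hw]

theorem Good.of_finite {G : SimpleGraph V} {A C C' : Set V} {s : ℕ} (hAC : Disjoint A C)
    (hC : C' ⊆ C) (hfin : C'.Finite) (h : ¬ Free G A C' (s + 1)) : Good G A C s := by
  obtain ⟨Z, hZ, hO⟩ := exists_obst hfin h
  obtain ⟨H, hHG, hO', hF⟩ := exists_min_obst (hAC.mono_right (hZ.trans hC)) hO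
  exact Good.extend hAC (hZ.trans hC) ⟨H, hHG, hF, not_free_of_obst subset_rfl hO'⟩

/-- finite closure under earlier neighbours -/
theorem finite_closure {H : SimpleGraph V} {C : Set V} {ρ : V → Ordinal.{u}}
    (hfin : ∀ v ∈ C, {w | H.Adj v w ∧ w ∈ C ∧ ρ w < ρ v}.Finite) :
    ∀ v ∈ C, ∃ I : Set V, I.Finite ∧ v ∈ I ∧ I ⊆ C ∧
      ∀ x ∈ I, ∀ w ∈ C, H.Adj x w → ρ w < ρ x → w ∈ I := by
  have key : ∀ o : Ordinal.{u}, ∀ v ∈ C, ρ v = o → ∃ I : Set V, I.Finite ∧ v ∈ I ∧ I ⊆ C ∧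
      ∀ x ∈ I, ∀ w ∈ C, H.Adj x w → ρ w < ρ x → w ∈ I := by
    intro o
    induction o using WellFoundedLT.induction with
    | ind o ih =>
      intro v hv hvo
      have h1 : ∀ w : V, ∃ I : Set V, w ∈ {w | H.Adj v w ∧ w ∈ C ∧ ρ w < ρ v} →
          (I.Finite ∧ w ∈ I ∧ I ⊆ C ∧ ∀ x ∈ I, ∀ w ∈ C, H.Adj x w → ρ w < ρ x → w ∈ I) := by
        intro w
        by_cases hw : w ∈ {w | H.Adj v w ∧ w ∈ C ∧ ρ w < ρ v}
        · obtain ⟨I, hI⟩ := ih (ρ w) (hvo ▸ hw.2.2) w hw.2.1 rfl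
          exact ⟨I, fun _ => hI⟩
        · exact ⟨∅, fun h => absurd h hw⟩
      choose I hI using h1
      refine ⟨insert v (⋃ w ∈ {w | H.Adj v w ∧ w ∈ C ∧ ρ w < ρ v}, I w), ?_, ?_, ?_, ?_⟩
      · apply Set.Finite.insert
        exact (hfin v hv).biUnion fun w hw => (hI w hw).1
      · exact Set.mem_insert _ _
      · intro x hx
        rcases hx with rfl | hx
        · exact hv
        · simp only [Set.mem_iUnion] at hx
          obtain ⟨w, hw, hx⟩ := hx
          exact (hI w hw).2.2.1 hx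
      · intro x hx w hw hxw hlt
        right
        simp only [Set.mem_iUnion]
        rcases hx with rfl | hx
        · exact ⟨w, ⟨hxw, hw, hlt⟩, (hI w ⟨hxw, hw, hlt⟩).2.1⟩
        · simp only [Set.mem_iUnion] at hx
          obtain ⟨y, hy, hx⟩ := hx
          exact ⟨y, hy, (hI y hy).2.2.2 x hx w hw hxw hlt⟩
  intro v hv
  exact key (ρ v) v hv rfl

theorem finite_closure' {H : SimpleGraph V} {C : Set V} {ρ : V → Ordinal.{u}}
    (hfin : ∀ v ∈ C, {w | H.Adj v w ∧ w ∈ C ∧ ρ w < ρ v}.Finite) {S : Set V} (hS : S ⊆ C)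
    (hSf : S.Finite) : ∃ I : Set V, I.Finite ∧ S ⊆ I ∧ I ⊆ C ∧
      ∀ x ∈ I, ∀ w ∈ C, H.Adj x w → ρ w < ρ x → w ∈ I := by
  have h1 : ∀ v : V, ∃ I : Set V, v ∈ C →
      (I.Finite ∧ v ∈ I ∧ I ⊆ C ∧ ∀ x ∈ I, ∀ w ∈ C, H.Adj x w → ρ w < ρ x → w ∈ I) := by
    intro v
    by_cases hv : v ∈ C
    · obtain ⟨I, hI⟩ := finite_closure hfin v hv
      exact ⟨I, fun _ => hI⟩
    · exact ⟨∅, fun h => absurd h hv⟩
  choose I hI using h1
  refine ⟨⋃ v ∈ S, I v, hSf.biUnion fun v hv => (hI v (hS hv)).1, ?_, ?_, ?_⟩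
  · intro v hv
    exact Set.mem_biUnion hv (hI v (hS hv)).2.1
  · intro x hx
    simp only [Set.mem_iUnion] at hx
    obtain ⟨w, hw, hx⟩ := hx
    exact (hI w (hS hw)).2.2.1 hx
  · intro x hx w hw hxw hlt
    simp only [Set.mem_iUnion] at hx ⊢
    obtain ⟨y, hy, hx⟩ := hx
    exact ⟨y, hy, (hI y (hS hy)).2.2.2 x hx w hw hxw hlt⟩

theorem countable_free {G : SimpleGraph V} {A C : Set V} {t : ℕ} (hC : C.Countable)
    (hgood : ∀ S ⊆ C, S.Finite → ∃ Y, S ⊆ Y ∧ Y ⊆ C ∧ Y.Finite ∧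
      ∀ Z ⊆ C \ Y, ¬ Obst G (A ∪ Y) Z t)
    (hfin : ∀ C' ⊆ C, C'.Finite → Free G A C' t) : Free G A C t := by
  classical
  rcases C.eq_empty_or_nonempty with rfl | hne
  · exact free_of_isolated (by simp)
  obtain ⟨c, hc⟩ := hC.exists_eq_range hne
  have h1 : ∀ S : Set V, ∃ Y : Set V, (S ⊆ C ∧ S.Finite) → (S ⊆ Y ∧ Y ⊆ C ∧ Y.Finite ∧
      ∀ Z ⊆ C \ Y, ¬ Obst G (A ∪ Y) Z t) := by
    intro S
    by_cases hS : S ⊆ C ∧ S.Finite
    · obtain ⟨Y, hY⟩ := hgood S hS.1 hS.2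
      exact ⟨Y, fun _ => hY⟩
    · exact ⟨∅, fun h => absurd h hS⟩
  choose g hg using h1
  let Y : ℕ → Set V := fun n => Nat.rec (motive := fun _ => Set V) ∅
    (fun n Y => g (insert (c n) Y)) n
  have hY0 : Y 0 = ∅ := rfl
  have hYs : ∀ n, Y (n + 1) = g (insert (c n) (Y n)) := fun n => rfl
  have hcC : ∀ n, c n ∈ C := fun n => hc ▸ Set.mem_range_self n
  have hY : ∀ n, Y n ⊆ C ∧ (Y n).Finite := by
    intro n
    induction n with
    | zero => simp [hY0]
    | succ n ih =>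
      rw [hYs]
      have := hg (insert (c n) (Y n)) ⟨Set.insert_subset (hcC n) ih.1, ih.2.insert _⟩
      exact ⟨this.2.1, this.2.2.1⟩
  have hYg : ∀ n, insert (c n) (Y n) ⊆ Y (n + 1) := fun n => by
    rw [hYs]
    exact (hg _ ⟨Set.insert_subset (hcC n) (hY n).1, (hY n).2.insert _⟩).1
  have hYo : ∀ n, ∀ Z ⊆ C \ Y (n + 1), ¬ Obst G (A ∪ Y (n + 1)) Z t := fun n => by
    rw [hYs]
    exact (hg _ ⟨Set.insert_subset (hcC n) (hY n).1, (hY n).2.insert _⟩).2.2.2
  have hmono : Monotone Y := monotone_nat_of_le_succ fun n => (Set.subset_insert _ _).trans (hYg n)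
  have hex : ∀ v ∈ C, ∃ n, v ∈ Y n := by
    intro v hv
    rw [hc] at hv
    obtain ⟨n, rfl⟩ := hv
    exact ⟨n + 1, hYg n (Set.mem_insert _ _)⟩
  let N : V → ℕ := fun v => sInf {n | v ∈ Y n}
  let β : V → Ordinal.{u} := fun v => (N v : Ordinal.{u})
  have hβ : ∀ v ∈ C, ∀ n : ℕ, β v ≤ n ↔ v ∈ Y n := by
    intro v hv n
    have h := hex v hv
    simp only [β, Nat.cast_le]
    constructor
    · intro h2
      exact hmono h2 (Nat.sInf_mem (s := {n | v ∈ Y n}) h)
    · intro h2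
      exact Nat.sInf_le h2
  have hβn : ∀ v ∈ C, ∃ n : ℕ, β v = n := fun v _ => ⟨N v, rfl⟩
  apply Free.blocks β
  intro i
  by_cases hi : ∃ n : ℕ, i = n
  · obtain ⟨n, rfl⟩ := hi
    rcases n with _ | n
    · refine (hfin (Y 0) (hY 0).1 (hY 0).2).mono (fun _ _ _ h _ => h) ?_ ?_ le_rfl
      · rintro w (hw | hw)
        · exact hw
        · exact absurd hw.2 (by simp)
      · rintro w ⟨hw, hw2⟩
        exact (hβ w hw 0).1 hw2.le
    · have h2 : Free G (A ∪ Y (n)) (Y (n + 1) \ Y n) t := by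
        rcases n with _ | n
        · refine (hfin (Y 1) (hY 1).1 (hY 1).2).mono (fun _ _ _ h _ => h) ?_ Set.sdiff_subset le_rfl
          simp [hY0]
        · refine free_of_no_obst _ (Y (n + 1 + 1) \ Y (n + 1)) ((hY (n + 1 + 1)).2.sdiff) rfl ?_
          intro Z hZ
          apply hYo n Z
          exact hZ.trans (Set.sdiff_subset_sdiff_left (hY (n + 1 + 1)).1)
      refine h2.mono (fun _ _ _ h _ => h) ?_ ?_ le_rfl
      · rintro w (hw | hw)
        · exact Or.inl hw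
        · right
          obtain ⟨hw1, hw2⟩ := hw
          rw [← hβ w hw1]
          obtain ⟨m, hm⟩ := hβn w hw1
          rw [hm] at hw2 ⊢
          norm_cast at hw2 ⊢
          omega
      · rintro w ⟨hw, hw2⟩
        refine ⟨(hβ w hw _).1 hw2.le, ?_⟩
        intro hcon
        rw [← hβ w hw, hw2] at hcon
        norm_cast at hcon
        omega
  · apply free_of_isolated
    rintro v ⟨hv, hv2⟩
    obtain ⟨m, hm⟩ := hβn v hv
    exact absurd ⟨m, hv2.symm.trans hm⟩ hi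

theorem countable_chain {G : SimpleGraph V} {A C : Set V} {s : ℕ} (hAC : Disjoint A C)
    {S : Set V} (hSC : S ⊆ C) (hSf : S.Finite)
    (hbad : ∀ Y, S ⊆ Y → Y ⊆ C → Y.Finite → ∃ Z ⊆ C \ Y, Obst G (A ∪ Y) Z (s + 1)) :
    Good G A C s := by
  classical
  have h1 : ∀ Y : Set V, ∃ (Z : Set V) (K : SimpleGraph V), (S ⊆ Y ∧ Y ⊆ C ∧ Y.Finite) →
      (Z ⊆ C \ Y ∧ K ≤ G ∧ Obst K (A ∪ Y) Z s ∧ Free K (A ∪ Y) Z (s + 1)) := by
    intro Y
    by_cases hY : S ⊆ Y ∧ Y ⊆ C ∧ Y.Finite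
    · obtain ⟨Z, hZ, hO⟩ := hbad Y hY.1 hY.2.1 hY.2.2
      have hd : Disjoint (A ∪ Y) Z := by
        rw [Set.disjoint_union_left]
        exact ⟨hAC.mono_right (hZ.trans Set.sdiff_subset),
          (Set.disjoint_sdiff_right).mono_right hZ⟩
      obtain ⟨K, hK⟩ := exists_min_obst hd hO
      exact ⟨Z, K, fun _ => ⟨hZ, hK⟩⟩
    · exact ⟨∅, ⊥, fun h => absurd h hY⟩
  choose g K hg using h1
  let Y : ℕ → Set V := fun n => Nat.rec (motive := fun _ => Set V) S (fun _ Y => Y ∪ g Y) n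
  have hY0 : Y 0 = S := rfl
  have hYs : ∀ n, Y (n + 1) = Y n ∪ g (Y n) := fun n => rfl
  have hY : ∀ n, S ⊆ Y n ∧ Y n ⊆ C ∧ (Y n).Finite := by
    intro n
    induction n with
    | zero => exact ⟨subset_rfl, hSC, hSf⟩
    | succ n ih =>
      rw [hYs]
      have := hg (Y n) ih
      exact ⟨ih.1.trans Set.subset_union_left,
        Set.union_subset ih.2.1 (this.1.trans Set.sdiff_subset), ih.2.2.union this.2.2.1.2.1⟩
  have hgY : ∀ n, g (Y n) ⊆ C \ Y n ∧ K (Y n) ≤ G ∧ Obst (K (Y n)) (A ∪ Y n) (g (Y n)) s ∧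
      Free (K (Y n)) (A ∪ Y n) (g (Y n)) (s + 1) := fun n => hg (Y n) (hY n)
  have hmono : Monotone Y := monotone_nat_of_le_succ fun n => by
    rw [hYs]; exact Set.subset_union_left
  have hcard : ∀ n, n ≤ (Y n).ncard := by
    intro n
    induction n with
    | zero => simp
    | succ n ih =>
      have hlt : Y n ⊂ Y (n + 1) := by
        refine ⟨hmono (Nat.le_succ n), ?_⟩
        intro hcon
        obtain ⟨z, hz⟩ := (hgY n).2.2.1.1
        exact ((hgY n).1 hz).2 (hcon (by rw [hYs]; exact Or.inr hz))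
      have := Set.ncard_lt_ncard hlt (hY (n + 1)).2.2
      omega
  -- block index
  let N : V → ℕ := fun v => sInf {n | v ∈ Y n}
  let D : Set V := {v | ∃ n : ℕ, v ∈ Y n}
  let β : V → Ordinal.{u} := fun v =>
    if v ∈ D then (N v : Ordinal.{u}) else Ordinal.omega0.{u}
  have hβ : ∀ v, ∀ n : ℕ, β v ≤ n ↔ v ∈ Y n := by
    intro v n
    by_cases h : v ∈ D
    · simp only [β, if_pos h, Nat.cast_le]
      constructor
      · intro h2
        exact hmono h2 (Nat.sInf_mem (s := {n | v ∈ Y n}) h)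
      · intro h2
        exact Nat.sInf_le h2
    · simp only [β, if_neg h]
      constructor
      · intro h2
        exact absurd h2 (not_le.2 (Ordinal.natCast_lt_omega0 n))
      · intro h2
        exact absurd ⟨n, h2⟩ h
  have hβlt : ∀ v, ∀ n : ℕ, β v < ((n + 1 : ℕ) : Ordinal.{u}) ↔ v ∈ Y n := by
    intro v n
    rw [← hβ v n, Nat.cast_succ]
    exact Order.lt_add_one_iff
  have hβeq : ∀ v, ∀ n : ℕ, β v = ((n + 1 : ℕ) : Ordinal.{u}) ↔ v ∈ g (Y n) := by
    intro v n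
    constructor
    · intro h
      have h1 : v ∈ Y (n + 1) := (hβ v (n + 1)).1 h.le
      have h2 : v ∉ Y n := fun hcon => absurd ((hβlt v n).2 hcon) (by rw [h]; exact lt_irrefl _)
      rw [hYs] at h1
      exact h1.resolve_left h2
    · intro h
      have h1 : v ∈ Y (n + 1) := by rw [hYs]; exact Or.inr h
      apply le_antisymm ((hβ v (n + 1)).2 h1)
      by_contra hcon
      exact ((hgY n).1 h).2 ((hβlt v n).1 (not_le.1 hcon))
  let I : Set Ordinal.{u} := {i | ∃ n : ℕ, i = ((n + 1 : ℕ) : Ordinal.{u})}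
  let K' : Ordinal.{u} → SimpleGraph V := fun i => K (Y (Cardinal.toNat i.card - 1))
  have hK' : ∀ n : ℕ, K' ((n + 1 : ℕ) : Ordinal.{u}) = K (Y n) := by
    intro n
    simp only [K', Ordinal.card_nat, Cardinal.toNat_natCast, Nat.add_sub_cancel]
  obtain ⟨H, hHG, hHF, hH⟩ := glue (G := G) (A := A) (C := C) (t := s + 1) hAC β I K' (by
      rintro i ⟨n, rfl⟩
      rw [hK']
      exact (hgY n).2.1) (by
      rintro i ⟨n, rfl⟩
      rw [hK']
      refine (hgY n).2.2.2.mono (fun _ _ _ h _ => h) ?_ ?_ le_rfl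
      · rintro w (hw | hw)
        · exact Or.inl hw
        · exact Or.inr ((hβlt w n).1 hw.2)
      · rintro w ⟨hw, hw2⟩
        exact (hβeq w n).1 hw2)
  refine ⟨H, hHG, hHF, ?_⟩
  rintro ⟨ρ, hρ, hF⟩
  have hfin : ∀ v ∈ C, {w | H.Adj v w ∧ w ∈ C ∧ ρ w < ρ v}.Finite := by
    intro v hv
    apply Set.finite_of_encard_le_coe (k := s)
    refine (Set.encard_le_encard ?_).trans (hF v hv)
    rintro w ⟨h1, h2⟩
    exact ⟨h1, Or.inr h2⟩
  obtain ⟨J, hJf, hSJ, hJC, hJ⟩ := finite_closure' hfin hSC hSf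
  have hYJ : ∀ n, Y n ⊆ J := by
    intro n
    induction n with
    | zero => exact hSJ
    | succ n ih =>
      rw [hYs]
      refine Set.union_subset ih ?_
      by_contra hcon
      have hne : (g (Y n) \ J).Nonempty := by
        obtain ⟨x, hx, hx2⟩ := Set.not_subset.1 hcon
        exact ⟨x, hx, hx2⟩
      have hgf : (g (Y n) \ J).Finite := (hgY n).2.2.1.2.1.sdiff
      obtain ⟨z, ⟨hz, hzJ⟩, hmax⟩ := Set.exists_max_image _ ρ hgf hne
      have hzC : z ∈ C := ((hgY n).1 hz).1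
      have hβz := (hβeq z n).2 hz
      have h1 := (hgY n).2.2.1.2.2 z hz
      have h2 := hF z hzC
      have h3 : {w | (K (Y n)).Adj z w ∧ (w ∈ A ∪ Y n ∨ w ∈ g (Y n))} ⊆
          {w | H.Adj z w ∧ (w ∈ A ∨ (w ∈ C ∧ ρ w < ρ z))} := by
        rintro w ⟨hw, hw2⟩
        have hw3 : w ∈ A ∨ (w ∈ C ∧ β w ≤ β z) := by
          rcases hw2 with (hw2 | hw2) | hw2
          · exact Or.inl hw2
          · refine Or.inr ⟨(hY n).2.1 hw2, ?_⟩
            rw [hβz]
            exact ((hβlt w n).2 hw2).le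
          · refine Or.inr ⟨((hgY n).1 hw2).1, ?_⟩
            rw [hβz, (hβeq w n).2 hw2]
        have hHw : H.Adj z w := by
          rw [hH z hzC w hw3, hβz, hK']
          exact ⟨⟨n, rfl⟩, hw⟩
        refine ⟨hHw, ?_⟩
        have hJw : w ∈ J → ρ w < ρ z := by
          intro hwJ
          rcases lt_trichotomy (ρ w) (ρ z) with h4 | h4 | h4
          · exact h4
          · exact absurd (hρ h4) hHw.ne'
          · exact absurd (hJ w hwJ z hzC hHw.symm h4) hzJ
        rcases hw2 with (hw2 | hw2) | hw2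
        · exact Or.inl hw2
        · exact Or.inr ⟨(hY n).2.1 hw2, hJw (ih hw2)⟩
        · refine Or.inr ⟨((hgY n).1 hw2).1, ?_⟩
          by_cases hwJ : w ∈ J
          · exact hJw hwJ
          · refine lt_of_le_of_ne (hmax w ⟨hw2, hwJ⟩) ?_
            intro he
            exact hHw.ne' (hρ he)
      have h4 := h1.trans ((Set.encard_le_encard h3).trans h2)
      norm_cast at h4
      omega
  have h5 := hcard (J.ncard + 1)
  have h6 := Set.ncard_le_ncard (hYJ (J.ncard + 1)) hJf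
  omega

theorem Good.of_countable {G : SimpleGraph V} {A C : Set V} {s : ℕ} (hAC : Disjoint A C)
    (hC : C.Countable) (h : ¬ Free G A C (s + 1)) : Good G A C s := by
  by_cases hfin : ∀ C' ⊆ C, C'.Finite → Free G A C' (s + 1)
  · by_contra hcon
    apply h
    apply countable_free hC _ hfin
    by_contra hbad
    push Not at hbad
    obtain ⟨S, hSC, hSf, hbad⟩ := hbad
    exact hcon (countable_chain hAC hSC hSf fun Y h1 h2 h3 => hbad Y h1 h2 h3)
  · push Not at hfin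
    obtain ⟨C', hC', hf, hnf⟩ := hfin
    exact Good.of_finite hAC hC' hf hnf

theorem exists_bound {θ : Cardinal.{u}} (hθ : θ.IsRegular) (g : Ordinal.{u} → Ordinal.{u})
    (hg : ∀ α < θ.ord, g α < θ.ord) (b : Ordinal.{u}) (hb : b < θ.ord) :
    ∃ m < θ.ord, ∀ β < b, g β ≤ m := by
  refine ⟨⨆ x : b.ToType, g (Ordinal.typein (α := b.ToType) (· < ·) x), ?_, ?_⟩
  · apply Ordinal.iSup_lt_of_lt_cof
    · rw [Cardinal.mk_toType, hθ.cof_ord]
      exact Cardinal.lt_ord.1 hb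
    · intro x
      apply hg
      exact (Ordinal.typein_lt_self x).trans hb
  · intro β hβ
    obtain ⟨x, hx⟩ := Ordinal.typein_surj (α := b.ToType) (· < ·) (o := β)
      (by rw [Ordinal.type_toType]; exact hβ)
    have h := le_ciSup (f := fun x : b.ToType => g (Ordinal.typein (α := b.ToType) (· < ·) x))
      Ordinal.bddAbove_of_small x
    rw [← hx]
    exact h

theorem exists_closure_point {θ : Cardinal.{u}} (hθ : θ.IsRegular) (hθ' : ℵ₀ < θ)
    (g : Ordinal.{u} → Ordinal.{u}) (hg : ∀ α < θ.ord, g α < θ.ord) (γ : Ordinal.{u})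
    (hγ : γ < θ.ord) : ∃ α, γ < α ∧ α < θ.ord ∧ ∀ β < α, g β < α := by
  have h1 : ∀ b : Ordinal.{u}, ∃ m : Ordinal.{u}, b < θ.ord → (m < θ.ord ∧ ∀ β < b, g β ≤ m) := by
    intro b
    by_cases hb : b < θ.ord
    · obtain ⟨m, hm⟩ := exists_bound hθ g hg b hb
      exact ⟨m, fun _ => hm⟩
    · exact ⟨0, fun h => absurd h hb⟩
  choose m hm using h1
  have hlim := Cardinal.isSuccLimit_ord hθ.aleph0_le
  have hh : ∀ i < θ.ord, m i + 1 < θ.ord := fun i hi => hlim.add_one_lt (hm i hi).1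
  have hnfp := Cardinal.nfp_lt_ord_of_isRegular hθ hθ'.ne' hh (hlim.add_one_lt hγ)
  refine ⟨Ordinal.nfp (fun b => m b + 1) (γ + 1), ?_, hnfp, ?_⟩
  · exact (lt_add_one γ).trans_le (Ordinal.le_nfp _ _)
  · intro β hβ
    rw [Ordinal.lt_nfp_iff] at hβ
    obtain ⟨n, hn⟩ := hβ
    have h2 : (fun b => m b + 1)^[n] (γ + 1) < θ.ord :=
      (Ordinal.iterate_le_nfp _ _ n).trans_lt hnfp
    have h3 := (hm _ h2).2 β hn
    refine h3.trans_lt ?_
    refine lt_of_lt_of_le ?_ (Ordinal.iterate_le_nfp _ _ (n + 1))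
    rw [Function.iterate_succ_apply']
    exact lt_add_one _

theorem closure_fun {H : SimpleGraph V} {A C : Set V} {t : ℕ} {θ : Cardinal.{u}}
    (hθ : θ.IsRegular) (r : V → Ordinal.{u})
    (hr : ∀ v ∈ C, r v < θ.ord) (hrc : ∀ α < θ.ord, #{v : V | v ∈ C ∧ r v < α} < θ)
    (h : Free H A C t) :
    ∃ g : Ordinal.{u} → Ordinal.{u}, (∀ α < θ.ord, g α < θ.ord) ∧
      ∀ α, (∀ β < α, g β < α) → Free H (A ∪ {w | w ∈ C ∧ r w < α}) {w | w ∈ C ∧ α ≤ r w} t := by
  obtain ⟨ρ, hρ, h⟩ := h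
  have hlim := Cardinal.isSuccLimit_ord hθ.aleph0_le
  have h1 : ∀ v : V, ∃ m : Ordinal.{u}, m < θ.ord ∧ (v ∈ C → ∀ w ∈ C, H.Adj v w → ρ w < ρ v → r w ≤ m) := by
    intro v
    by_cases hv : v ∈ C
    · have hfin : {w | H.Adj v w ∧ w ∈ C ∧ ρ w < ρ v}.Finite := by
        apply Set.finite_of_encard_le_coe (k := t)
        refine (Set.encard_le_encard ?_).trans (h v hv)
        rintro w ⟨h1, h2⟩
        exact ⟨h1, Or.inr h2⟩
      rcases Set.eq_empty_or_nonempty {w | H.Adj v w ∧ w ∈ C ∧ ρ w < ρ v} with he | hne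
      · refine ⟨0, ?_, ?_⟩
        · exact hθ.ord_pos
        · intro _ w hw hvw hlt
          have : w ∈ {w | H.Adj v w ∧ w ∈ C ∧ ρ w < ρ v} := ⟨hvw, hw, hlt⟩
          rw [he] at this
          exact absurd this (Set.notMem_empty _)
      · obtain ⟨z, hz, hmax⟩ := Set.exists_max_image _ r hfin hne
        exact ⟨r z, hr z hz.2.1, fun _ w hw hvw hlt => hmax w ⟨hvw, hw, hlt⟩⟩
    · exact ⟨0, hθ.ord_pos, fun h => absurd h hv⟩
  choose m hm1 hm2 using h1
  refine ⟨fun α => ⨆ v : {v : V | v ∈ C ∧ r v < α + 1}, m v.1, ?_, ?_⟩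
  · intro α hα
    apply Ordinal.iSup_lt_of_lt_cof
    · rw [hθ.cof_ord]
      exact hrc _ (hlim.add_one_lt hα)
    · intro v
      exact hm1 _
  · intro α hα
    have hcl := Free.closed (B := {w | w ∈ C ∧ r w < α}) hρ h (fun w hw => hw.1) (by
      rintro v ⟨hv, hvα⟩ w hw hvw hlt
      refine ⟨hw, ?_⟩
      have h2 := hm2 v hv w hw hvw hlt
      have h3 := hα (r v) hvα
      have h4 : m v ≤ ⨆ x : {x : V | x ∈ C ∧ r x < r v + 1}, m x.1 :=
        le_ciSup (f := fun x : {x : V | x ∈ C ∧ r x < r v + 1} => m x.1)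
          Ordinal.bddAbove_of_small ⟨v, hv, lt_add_one _⟩
      exact (h2.trans h4).trans_lt h3)
    refine hcl.mono (fun _ _ _ h _ => h) subset_rfl ?_ le_rfl
    rintro w ⟨hw, hw2⟩
    exact ⟨hw, fun hcon => absurd hcon.2 (not_lt.2 hw2)⟩

theorem exists_rank (C : Set V) : ∃ r : V → Ordinal.{u}, (∀ v ∈ C, r v < (#C).ord) ∧
    Set.InjOn r C ∧ ∀ α < (#C).ord, #{v : V | v ∈ C ∧ r v < α} < #C := by
  classical
  obtain ⟨q, hq, hqt⟩ := Cardinal.exists_ord_eq C
  let r : V → Ordinal.{u} := fun v => if h : v ∈ C then Ordinal.typein q ⟨v, h⟩ else 0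
  have hr : ∀ v (h : v ∈ C), r v = Ordinal.typein q ⟨v, h⟩ := fun v h => by simp only [r, dif_pos h]
  have hinj : Set.InjOn r C := by
    intro v hv w hw hvw
    rw [hr v hv, hr w hw] at hvw
    have := Ordinal.typein_injective q hvw
    exact congrArg Subtype.val this
  refine ⟨r, ?_, hinj, ?_⟩
  · intro v hv
    rw [hr v hv, hqt]
    exact Ordinal.typein_lt_type q _
  · intro α hα
    have h0 : ∀ v : {v : V | v ∈ C ∧ r v < α}, ∃ x : α.ToType,
        Ordinal.typein (α := α.ToType) (· < ·) x = r v.1 := fun v =>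
      Ordinal.typein_surj (α := α.ToType) (· < ·) (by rw [Ordinal.type_toType]; exact v.2.2)
    choose f hf using h0
    have h1 : #{v : V | v ∈ C ∧ r v < α} ≤ #α.ToType := by
      refine Cardinal.mk_le_of_injective (f := f) ?_
      intro v w hvw
      have h2 : r v.1 = r w.1 := by rw [← hf v, ← hf w, hvw]
      exact Subtype.ext (hinj v.2.1 w.2.1 h2)
    rw [Cardinal.mk_toType] at h1
    exact h1.trans_lt (Cardinal.lt_ord.1 hα)

theorem regular_free {G : SimpleGraph V} {A C : Set V} {t : ℕ} {θ : Cardinal.{u}}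
    (hθ : θ.IsRegular) (hθ' : ℵ₀ < θ) (r : V → Ordinal.{u})
    (hr : ∀ v ∈ C, r v < θ.ord)
    (hrc : ∀ α < θ.ord, #{v : V | v ∈ C ∧ r v < α} < θ)
    (hsmall : ∀ C' ⊆ C, #C' < θ → Free G A C' t)
    (g : Ordinal.{u} → Ordinal.{u}) (hg : ∀ α < θ.ord, g α < θ.ord)
    (h : ∀ α, 0 < α → α < θ.ord → (∀ β < α, g β < α) → ∀ β < θ.ord,
      Free G (A ∪ {w | w ∈ C ∧ r w < α}) {w | w ∈ C ∧ α ≤ r w ∧ r w < β} t) :
    Free G A C t := by
  let S : V → Set Ordinal.{u} := fun v => {α | α ≤ r v ∧ ∀ β < α, g β < α}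
  have hS0 : ∀ v, (0 : Ordinal.{u}) ∈ S v := fun v => ⟨bot_le, fun β hβ => absurd hβ (by simp)⟩
  have hSb : ∀ v, BddAbove (S v) := fun v => ⟨r v, fun α hα => hα.1⟩
  have hSm : ∀ v, sSup (S v) ∈ S v := by
    intro v
    refine ⟨csSup_le ⟨0, hS0 v⟩ fun α hα => hα.1, ?_⟩
    intro β hβ
    obtain ⟨α, hα, hβα⟩ := exists_lt_of_lt_csSup ⟨0, hS0 v⟩ hβ
    exact (hα.2 β hβα).trans_le (le_csSup (hSb v) hα)
  apply Free.blocks fun v => sSup (S v)
  intro i
  by_cases hi : (∀ β < i, g β < i) ∧ i < θ.ord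
  · obtain ⟨hi1, hi2⟩ := hi
    obtain ⟨β, hβ1, hβ2, hβ3⟩ := exists_closure_point hθ hθ' g hg i hi2
    have hlt : ∀ w ∈ C, sSup (S w) = i → i ≤ r w ∧ r w < β := by
      intro w hw hw2
      refine ⟨hw2 ▸ (hSm w).1, ?_⟩
      by_contra hcon
      have : β ∈ S w := ⟨not_lt.1 hcon, hβ3⟩
      have := le_csSup (hSb w) this
      rw [hw2] at this
      exact absurd hβ1 (not_lt.2 this)
    rcases eq_or_ne i 0 with rfl | hi0
    · refine (hsmall {w | w ∈ C ∧ r w < β} (fun w hw => hw.1) (hrc β hβ2)).mono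
        (fun _ _ _ h _ => h) ?_ ?_ le_rfl
      · rintro w (hw | hw)
        · exact hw
        · exact absurd hw.2 (by simp)
      · rintro w ⟨hw, hw2⟩
        exact ⟨hw, (hlt w hw hw2).2⟩
    · refine (h i (pos_iff_ne_zero.2 hi0) hi2 hi1 β hβ2).mono (fun _ _ _ h _ => h) ?_ ?_ le_rfl
      · rintro w (hw | hw)
        · exact Or.inl hw
        · refine Or.inr ⟨hw.1, ?_⟩
          by_contra hcon
          have : i ∈ S w := ⟨not_lt.1 hcon, hi1⟩
          exact absurd hw.2 (not_lt.2 (le_csSup (hSb w) this))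
      · rintro w ⟨hw, hw2⟩
        exact ⟨hw, hlt w hw hw2⟩
  · apply free_of_isolated
    rintro v ⟨hv, hv2⟩
    exfalso
    apply hi
    rw [← hv2]
    exact ⟨(hSm v).2, (hSm v).1.trans_lt (hr v hv)⟩

theorem Good.of_regular {G : SimpleGraph V} {A C : Set V} {s : ℕ} (hAC : Disjoint A C)
    {θ : Cardinal.{u}} (hθ : θ.IsRegular) (hθ' : ℵ₀ < θ) (hC : #C = θ)
    (ih : ∀ A' C' : Set V, Disjoint A' C' → #C' < θ → ¬ Free G A' C' (s + 1) → Good G A' C' s)
    (hsmall : ∀ C' ⊆ C, #C' < θ → Free G A C' (s + 1))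
    (h : ¬ Free G A C (s + 1)) : Good G A C s := by
  classical
  obtain ⟨r, hr, hrinj, hrc⟩ := exists_rank C
  rw [hC] at hr hrc
  let X : Ordinal.{u} → Set V := fun α => {w | w ∈ C ∧ r w < α}
  let E : Set Ordinal.{u} := {α | 0 < α ∧ α < θ.ord ∧ ∃ β < θ.ord,
    ¬ Free G (A ∪ X α) {w | w ∈ C ∧ α ≤ r w ∧ r w < β} (s + 1)}
  have hstat : ∀ g : Ordinal.{u} → Ordinal.{u}, (∀ α < θ.ord, g α < θ.ord) →
      ∃ α ∈ E, ∀ β < α, g β < α := by
    intro g hg
    by_contra hcon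
    push Not at hcon
    apply h
    apply regular_free hθ hθ' r hr hrc hsmall g hg
    intro α h0 h1 h2 β hβ
    by_contra hnf
    obtain ⟨β', hβ', h3⟩ := hcon α ⟨h0, h1, β, hβ, hnf⟩
    exact absurd (h2 β' hβ') (not_lt.2 h3)
  -- choose witnesses
  have h1 : ∀ α : Ordinal.{u}, ∃ β : Ordinal.{u}, α ∈ E → (β < θ.ord ∧
      ¬ Free G (A ∪ X α) {w | w ∈ C ∧ α ≤ r w ∧ r w < β} (s + 1)) := by
    intro α
    by_cases hα : α ∈ E
    · obtain ⟨β, hβ⟩ := hα.2.2
      exact ⟨β, fun _ => hβ⟩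
    · exact ⟨0, fun h => absurd h hα⟩
  choose b hb using h1
  let Z : Ordinal.{u} → Set V := fun α => {w | w ∈ C ∧ α ≤ r w ∧ r w < b α}
  have hZC : ∀ α, Z α ⊆ C := fun α w hw => hw.1
  have hbα : ∀ α ∈ E, α < b α := by
    intro α hα
    by_contra hcon
    apply (hb α hα).2
    apply free_of_isolated
    rintro v ⟨_, h2, h3⟩
    exact absurd (h2.trans_lt h3) hcon
  have hgood : ∀ α : Ordinal.{u}, ∃ K : SimpleGraph V, α ∈ E →
      (K ≤ G ∧ Free K (A ∪ X α) (Z α) (s + 1) ∧ ¬ Free K (A ∪ X α) (Z α) s) := by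
    intro α
    by_cases hα : α ∈ E
    · have hd : Disjoint (A ∪ X α) (Z α) := by
        rw [Set.disjoint_union_left]
        refine ⟨hAC.mono_right (hZC α), ?_⟩
        rw [Set.disjoint_left]
        rintro w hw hw2
        exact absurd hw.2 (not_lt.2 hw2.2.1)
      have hcard : #(Z α) < θ := by
        refine lt_of_le_of_lt (Cardinal.mk_le_mk_of_subset ?_) (hrc (b α) (hb α hα).1)
        rintro w ⟨h1, h2, h3⟩
        exact ⟨h1, h3⟩
      obtain ⟨K, hK⟩ := ih (A ∪ X α) (Z α) hd hcard (hb α hα).2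
      exact ⟨K, fun _ => hK⟩
    · exact ⟨⊥, fun h => absurd h hα⟩
  choose K hK using hgood
  let g0 : Ordinal.{u} → Ordinal.{u} := fun α => if α ∈ E then b α else 0
  have hg0 : ∀ α < θ.ord, g0 α < θ.ord := by
    intro α hα
    simp only [g0]
    split_ifs with hαE
    · exact (hb α hαE).1
    · exact hθ.ord_pos
  let E' : Set Ordinal.{u} := {α | α ∈ E ∧ ∀ β < α, g0 β < α}
  have hE' : ∀ α ∈ E', ∀ α' ∈ E', α < α' → b α < α' := by
    intro α hα α' hα' hlt
    have := hα'.2 α hlt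
    simp only [g0, if_pos hα.1] at this
    exact this
  -- block index
  let P : V → Set Ordinal.{u} := fun v => {α | α ∈ E' ∧ v ∈ Z α}
  have hPu : ∀ v, ∀ α ∈ P v, ∀ α' ∈ P v, α = α' := by
    intro v α hα α' hα'
    rcases lt_trichotomy α α' with h2 | h2 | h2
    · have h3 := hE' α hα.1 α' hα'.1 h2
      exact absurd ((hα.2.2.2).trans (h3.trans_le hα'.2.2.1)) (lt_irrefl _)
    · exact h2
    · have h3 := hE' α' hα'.1 α hα.1 h2
      exact absurd ((hα'.2.2.2).trans (h3.trans_le hα.2.2.1)) (lt_irrefl _)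
  let bi : V → Ordinal.{u} := fun v => if (P v).Nonempty then sInf (P v) else r v
  have hbi1 : ∀ v, ∀ α ∈ P v, bi v = α := by
    intro v α hα
    have hne : (P v).Nonempty := ⟨α, hα⟩
    simp only [bi, if_pos hne]
    exact hPu v _ (csInf_mem hne) α hα
  have hbi2 : ∀ v, ¬ (P v).Nonempty → bi v = r v := by
    intro v hv
    simp only [bi, if_neg hv]
  have hlt : ∀ α ∈ E', ∀ v ∈ C, (bi v < α ↔ r v < α) := by
    intro α hα v hv
    by_cases hne : (P v).Nonempty
    · obtain ⟨α', hα'⟩ := hne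
      rw [hbi1 v α' hα']
      constructor
      · intro h2
        exact hα'.2.2.2.trans (hE' α' hα'.1 α hα h2)
      · intro h2
        exact hα'.2.2.1.trans_lt h2
    · rw [hbi2 v hne]
  have heq : ∀ α ∈ E', ∀ v ∈ C, (bi v = α ↔ v ∈ Z α) := by
    intro α hα v hv
    constructor
    · intro h2
      by_cases hne : (P v).Nonempty
      · obtain ⟨α', hα'⟩ := hne
        rw [hbi1 v α' hα'] at h2
        rw [← h2]
        exact hα'.2
      · rw [hbi2 v hne] at h2
        exact ⟨hv, h2.ge, h2.trans_lt (hbα α hα.1)⟩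
    · intro h2
      exact hbi1 v α ⟨hα, h2⟩
  obtain ⟨H, hHG, hHF, hH⟩ := glue (G := G) (A := A) (C := C) (t := s + 1) hAC bi E' K
    (fun i hi => (hK i hi.1).1) (by
      intro i hi
      refine (hK i hi.1).2.1.mono (fun _ _ _ h _ => h) ?_ ?_ le_rfl
      · rintro w (hw | hw)
        · exact Or.inl hw
        · exact Or.inr ⟨hw.1, (hlt i hi w hw.1).1 hw.2⟩
      · rintro w ⟨hw, hw2⟩
        exact (heq i hi w hw).1 hw2)
  refine ⟨H, hHG, hHF, fun hcon => ?_⟩
  obtain ⟨g, hg1, hg2⟩ := closure_fun hθ r hr hrc hcon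
  obtain ⟨α, hαE, hα⟩ := hstat (fun α => max (g α) (g0 α)) (fun α h2 => max_lt (hg1 α h2) (hg0 α h2))
  have hα1 : ∀ β < α, g β < α := fun β hβ => (le_max_left _ _).trans_lt (hα β hβ)
  have hα2 : ∀ β < α, g0 β < α := fun β hβ => (le_max_right _ _).trans_lt (hα β hβ)
  have hαE' : α ∈ E' := ⟨hαE, hα2⟩
  apply (hK α hαE).2.2
  refine (hg2 α hα1).mono ?_ subset_rfl ?_ le_rfl
  · intro v hv w hvw hw
    have hvC : v ∈ C := hv.1
    have hbv : bi v = α := (heq α hαE' v hvC).2 hv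
    rw [hH v hvC w, hbv]
    · exact ⟨hαE', hvw⟩
    · rw [hbv]
      rcases hw with (hw | hw) | hw
      · exact Or.inl hw
      · exact Or.inr ⟨hw.1, ((hlt α hαE' w hw.1).2 hw.2).le⟩
      · exact Or.inr ⟨hw.1, ((heq α hαE' w hw.1).2 hw).le⟩
  · rintro w ⟨h2, h3, h4⟩
    exact ⟨h2, h3⟩

theorem mk_iUnion_le_of_le {ι : Type u} {κ : Cardinal.{u}} (hκ : ℵ₀ ≤ κ) (f : ι → Set V)
    (hι : #ι ≤ κ) (hf : ∀ i, #(f i) ≤ κ) : #(⋃ i, f i) ≤ κ := by
  refine (Cardinal.mk_iUnion_le f).trans ?_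
  refine (mul_le_mul' hι (ciSup_le' hf)).trans ?_
  rw [Cardinal.mul_eq_self hκ]

theorem exists_good_superset {G : SimpleGraph V} {A C : Set V} {t : ℕ} {κ : Cardinal.{u}}
    (hκ : ℵ₀ ≤ κ) (hsmall : ∀ C' ⊆ C, #C' ≤ succ κ → Free G A C' t)
    (X₀ : Set V) (hX₀ : X₀ ⊆ C) (hX₀c : #X₀ ≤ κ) :
    ∃ X, X₀ ⊆ X ∧ X ⊆ C ∧ #X ≤ κ ∧
      ∀ Y, X ⊆ Y → Y ⊆ C → #Y ≤ κ → Free G (A ∪ X) (Y \ X) t := by
  classical
  by_contra hcon
  push Not at hcon
  have h1 : ∀ X : Set V, ∃ Y : Set V, (X₀ ⊆ X ∧ X ⊆ C ∧ #X ≤ κ) →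
      (X ⊆ Y ∧ Y ⊆ C ∧ #Y ≤ κ ∧ ¬ Free G (A ∪ X) (Y \ X) t) := by
    intro X
    by_cases hX : X₀ ⊆ X ∧ X ⊆ C ∧ #X ≤ κ
    · obtain ⟨Y, hY⟩ := hcon X hX.1 hX.2.1 hX.2.2
      exact ⟨Y, fun _ => hY⟩
    · exact ⟨∅, fun h => absurd h hX⟩
  choose F hF using h1
  let X : Ordinal.{u} → Set V := WellFounded.fix (C := fun _ => Set V) Ordinal.lt_wf
    (fun α IH => X₀ ∪ ⋃ x : α.ToType,
      F (IH (Ordinal.typein (α := α.ToType) (· < ·) x) (Ordinal.typein_lt_self x)))
  have hX : ∀ α, X α = X₀ ∪ ⋃ x : α.ToType,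
      F (X (Ordinal.typein (α := α.ToType) (· < ·) x)) := fun α => WellFounded.fix_eq _ _ _
  have hmem : ∀ α v, v ∈ X α ↔ v ∈ X₀ ∨ ∃ β < α, v ∈ F (X β) := by
    intro α v
    rw [hX α, Set.mem_union, Set.mem_iUnion]
    constructor
    · rintro (h | ⟨x, hx⟩)
      · exact Or.inl h
      · exact Or.inr ⟨_, Ordinal.typein_lt_self x, hx⟩
    · rintro (h | ⟨β, hβ, hx⟩)
      · exact Or.inl h
      · right
        obtain ⟨x, hx'⟩ := Ordinal.typein_surj (α := α.ToType) (· < ·) (o := β)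
          (by rw [Ordinal.type_toType]; exact hβ)
        exact ⟨x, by rw [hx']; exact hx⟩
  have hmono : ∀ α β, α ≤ β → X α ⊆ X β := by
    intro α β h v hv
    rw [hmem] at hv ⊢
    rcases hv with hv | ⟨γ, hγ, hv⟩
    · exact Or.inl hv
    · exact Or.inr ⟨γ, hγ.trans_le h, hv⟩
  have hinv : ∀ α < (succ κ).ord, X₀ ⊆ X α ∧ X α ⊆ C ∧ #(X α) ≤ κ := by
    intro α
    induction α using WellFoundedLT.induction with
    | ind α ih =>
      intro hα
      refine ⟨fun v hv => (hmem α v).2 (Or.inl hv), ?_, ?_⟩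
      · intro v hv
        rw [hmem] at hv
        rcases hv with hv | ⟨γ, hγ, hv⟩
        · exact hX₀ hv
        · exact (hF (X γ) (ih γ hγ (hγ.trans hα))).2.1 hv
      · rw [hX α]
        refine (Cardinal.mk_union_le _ _).trans ?_
        refine Cardinal.add_le_of_le hκ hX₀c ?_
        apply mk_iUnion_le_of_le hκ
        · rw [Cardinal.mk_toType]
          exact Order.lt_succ_iff.1 (Cardinal.lt_ord.1 hα)
        · intro x
          have hlt := Ordinal.typein_lt_self x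
          exact (hF _ (ih _ hlt (hlt.trans hα))).2.2.1
  have hθ : (succ κ).IsRegular := Cardinal.isRegular_succ hκ
  have hθ' : ℵ₀ < succ κ := hκ.trans_lt (lt_succ κ)
  have hlim := Cardinal.isSuccLimit_ord hθ.aleph0_le
  let W : Set V := {v | ∃ α < (succ κ).ord, v ∈ X α}
  have hWC : W ⊆ C := by
    rintro v ⟨α, hα, hv⟩
    exact (hinv α hα).2.1 hv
  have hWc : #W ≤ succ κ := by
    have hsub : W ⊆ ⋃ x : (succ κ).ord.ToType,
        X (Ordinal.typein (α := (succ κ).ord.ToType) (· < ·) x) := by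
      rintro v ⟨α, hα, hv⟩
      rw [Set.mem_iUnion]
      obtain ⟨x, hx'⟩ := Ordinal.typein_surj (α := (succ κ).ord.ToType) (· < ·) (o := α)
          (by rw [Ordinal.type_toType]; exact hα)
      exact ⟨x, by rw [hx']; exact hv⟩
    refine (Cardinal.mk_le_mk_of_subset hsub).trans ?_
    apply mk_iUnion_le_of_le hθ'.le
    · rw [Cardinal.mk_toType, Cardinal.card_ord]
    · intro x
      exact ((hinv _ (Ordinal.typein_lt_self x)).2.2).trans (le_succ κ)
  let r : V → Ordinal.{u} := fun v => sInf {α | v ∈ X α}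
  have hr1 : ∀ v ∈ W, v ∈ X (r v) := by
    rintro v ⟨α, hα, hv⟩
    exact csInf_mem (s := {α | v ∈ X α}) ⟨α, hv⟩
  have hr2 : ∀ v, ∀ α, v ∈ X α → r v ≤ α := by
    intro v α hv
    exact csInf_le' hv
  have hrlt : ∀ v ∈ W, r v < (succ κ).ord := by
    rintro v ⟨α, hα, hv⟩
    exact (hr2 v α hv).trans_lt hα
  have hrc : ∀ α < (succ κ).ord, #{v : V | v ∈ W ∧ r v < α} < succ κ := by
    intro α hα
    rw [Order.lt_succ_iff]
    refine (Cardinal.mk_le_mk_of_subset ?_).trans (hinv α hα).2.2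
    rintro v ⟨hv, hv2⟩
    exact hmono _ _ hv2.le (hr1 v hv)
  obtain ⟨g, hg1, hg2⟩ := closure_fun hθ r hrlt hrc (hsmall W hWC hWc)
  obtain ⟨α, hα0, hα1, hα2⟩ := exists_closure_point hθ hθ' (fun α => max (g α) (α + 1))
    (fun α hα => max_lt (hg1 α hα) (hlim.add_one_lt hα)) 0 hθ.ord_pos
  have hαg : ∀ β < α, g β < α := fun β hβ => (le_max_left _ _).trans_lt (hα2 β hβ)
  have hαs : ∀ β < α, β + 1 < α := fun β hβ => (le_max_right _ _).trans_lt (hα2 β hβ)
  have hfree := hg2 α hαg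
  have hα3 := hF (X α) (hinv α hα1)
  apply hα3.2.2.2
  refine hfree.mono (fun _ _ _ h _ => h) ?_ ?_ le_rfl
  · apply Set.union_subset_union_right
    intro v hv
    refine ⟨⟨α, hα1, hv⟩, ?_⟩
    rw [hmem] at hv
    rcases hv with hv | ⟨β, hβ, hv⟩
    · exact (hr2 v 0 ((hmem 0 v).2 (Or.inl hv))).trans_lt hα0
    · refine lt_of_le_of_lt (hr2 v (β + 1) ((hmem (β + 1) v).2 (Or.inr ⟨β, lt_add_one β, hv⟩))) ?_
      exact hαs β hβ
  · rintro v ⟨hv, hv2⟩
    have hvW : v ∈ W := ⟨α + 1, hlim.add_one_lt hα1, (hmem (α + 1) v).2 (Or.inr ⟨α, lt_add_one α, hv⟩)⟩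
    refine ⟨hvW, ?_⟩
    by_contra hcon2
    exact hv2 (hmono _ _ (not_le.1 hcon2).le (hr1 v hvW))

theorem exists_rank' (C : Set V) : ∃ r : V → Ordinal.{u}, (∀ v ∈ C, r v < (#C).ord) ∧
    ∀ α, #{v : V | v ∈ C ∧ r v < α} ≤ α.card := by
  classical
  obtain ⟨q, hq, hqt⟩ := Cardinal.exists_ord_eq C
  let r : V → Ordinal.{u} := fun v => if h : v ∈ C then Ordinal.typein q ⟨v, h⟩ else 0
  have hr : ∀ v (h : v ∈ C), r v = Ordinal.typein q ⟨v, h⟩ := fun v h => by simp only [r, dif_pos h]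
  have hinj : Set.InjOn r C := by
    intro v hv w hw hvw
    rw [hr v hv, hr w hw] at hvw
    have := Ordinal.typein_injective q hvw
    exact congrArg Subtype.val this
  refine ⟨r, ?_, ?_⟩
  · intro v hv
    rw [hr v hv, hqt]
    exact Ordinal.typein_lt_type q _
  · intro α
    have h0 : ∀ v : {v : V | v ∈ C ∧ r v < α}, ∃ x : α.ToType,
        Ordinal.typein (α := α.ToType) (· < ·) x = r v.1 := fun v =>
      Ordinal.typein_surj (α := α.ToType) (· < ·) (by rw [Ordinal.type_toType]; exact v.2.2)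
    choose f hf using h0
    have h1 : #{v : V | v ∈ C ∧ r v < α} ≤ #α.ToType := by
      refine Cardinal.mk_le_of_injective (f := f) ?_
      intro v w hvw
      have h2 : r v.1 = r w.1 := by rw [← hf v, ← hf w, hvw]
      exact Subtype.ext (hinj v.2.1 w.2.1 h2)
    rw [Cardinal.mk_toType] at h1
    exact h1

theorem exists_cofinal_family {c : Cardinal.{u}} (hc : c.IsSingular) :
    ∃ (ι : Type u) (h : ι → Ordinal.{u}), #ι < c ∧ (∀ i, h i < c.ord) ∧
      ∀ x < c.ord, ∃ i, x ≤ h i := by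
  obtain ⟨s, hs, hsc⟩ := Order.exists_cof_eq c.ord.ToType
  refine ⟨s, fun x => Ordinal.typein (α := c.ord.ToType) (· < ·) x.1, ?_, ?_, ?_⟩
  · rw [hsc, Ordinal.cof_toType]
    exact hc.cof_ord_lt
  · intro i
    exact Ordinal.typein_lt_self _
  · intro x hx
    obtain ⟨y, hy⟩ := Ordinal.typein_surj (α := c.ord.ToType) (· < ·) (o := x)
          (by rw [Ordinal.type_toType]; exact hx)
    obtain ⟨z, hz, hyz⟩ := hs y
    refine ⟨⟨z, hz⟩, ?_⟩
    rw [← hy]
    rcases hyz.lt_or_eq with h | h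
    · exact ((Ordinal.typein_lt_typein (α := c.ord.ToType) (· < ·)).2 h).le
    · rw [h]

/-- Singular compactness for the relative colouring number. -/
theorem singular_free {G : SimpleGraph V} {A C : Set V} {t : ℕ} (hsing : (#C).IsSingular)
    (hsmall : ∀ C' ⊆ C, #C' < #C → Free G A C' t) : Free G A C t := by
  classical
  obtain ⟨ι, h, hι, hh, hcof⟩ := exists_cofinal_family hsing
  obtain ⟨r, hr, hrc⟩ := exists_rank' C
  have hlim := Cardinal.isSuccLimit_ord hsing.aleph0_le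
  have hsl := hsing.isSuccLimit
  have hal : ℵ₀ < #C := by
    refine lt_of_le_of_ne hsing.aleph0_le ?_
    intro he
    rw [← he] at hsing
    exact Cardinal.not_isSingular_aleph0 hsing
  let κ : ι → Cardinal.{u} := fun i => max (max #ι ℵ₀) (h i + 1).card
  have hκ0 : ∀ i, ℵ₀ ≤ κ i := fun i => (le_max_right _ _).trans (le_max_left _ _)
  have hκι : ∀ i, #ι ≤ κ i := fun i => (le_max_left _ _).trans (le_max_left _ _)
  have hκlt : ∀ i, κ i < #C := fun i =>
    max_lt (max_lt hι hal) (Cardinal.lt_ord.1 (hlim.add_one_lt (hh i)))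
  have hκmono : ∀ i j, h i ≤ h j → κ i ≤ κ j := by
    intro i j hij
    apply max_le_max_left
    apply Ordinal.card_le_card
    exact add_le_add_left hij 1
  -- good supersets
  have hgs : ∀ (i : ι) (X : Set V), ∃ X' : Set V, (X ⊆ C ∧ #X ≤ κ i) →
      (X ⊆ X' ∧ X' ⊆ C ∧ #X' ≤ κ i ∧
      ∀ Y, X' ⊆ Y → Y ⊆ C → #Y ≤ κ i → Free G (A ∪ X') (Y \ X') t) := by
    intro i X
    by_cases hX : X ⊆ C ∧ #X ≤ κ i
    · obtain ⟨X', hX'⟩ := exists_good_superset (G := G) (A := A) (t := t) (hκ0 i) (fun C' hC' hcc =>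
        hsmall C' hC' (hcc.trans_lt (hsl.succ_lt (hκlt i)))) X hX.1 hX.2
      exact ⟨X', fun _ => hX'⟩
    · exact ⟨∅, fun h => absurd h hX⟩
  choose Gd hGd using hgs
  -- chosen orders
  have hR : ∀ X Y : Set V, ∃ ρ : V → Ordinal.{u}, Function.Injective ρ ∧
      (Free G (A ∪ X) (Y \ X) t → ∀ v ∈ Y \ X,
        {w | G.Adj v w ∧ (w ∈ A ∪ X ∨ (w ∈ Y \ X ∧ ρ w < ρ v))}.encard ≤ t) := by
    intro X Y
    by_cases hXY : Free G (A ∪ X) (Y \ X) t
    · obtain ⟨ρ, hρ, hρ2⟩ := hXY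
      exact ⟨ρ, hρ, fun _ => hρ2⟩
    · obtain ⟨ρ, hρ⟩ := exists_inj V
      exact ⟨ρ, hρ, fun h => absurd h hXY⟩
  choose R hR1 hR2 using hR
  let bd : Set V → Set V → V → Set V := fun X Y v =>
    {w | G.Adj v w ∧ v ∈ Y \ X ∧ (w ∈ X ∨ (w ∈ Y \ X ∧ R X Y w < R X Y v))}
  have hbdf : ∀ X Y v, Free G (A ∪ X) (Y \ X) t → (bd X Y v).Finite := by
    intro X Y v hF
    by_cases hv : v ∈ Y \ X
    · apply Set.finite_of_encard_le_coe (k := t)
      refine (Set.encard_le_encard ?_).trans (hR2 X Y hF v hv)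
      rintro w ⟨h1, h2, h3⟩
      exact ⟨h1, h3.imp Or.inr id⟩
    · have : bd X Y v = ∅ := by
        ext w
        simp only [Set.mem_empty_iff_false, iff_false]
        rintro ⟨h1, h2, h3⟩
        exact hv h2
      rw [this]
      exact Set.finite_empty
  have hbdC : ∀ X Y v, X ⊆ C → Y ⊆ C → bd X Y v ⊆ C := by
    rintro X Y v hX hY w ⟨h1, h2, h3 | h3⟩
    · exact hX h3
    · exact hY h3.1.1
  -- the recursion
  let nx : (ι → Set V) × (ι → V → Set V) → (ι → Set V) := fun S i =>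
    Gd i ((⋃ j : {j // h j ≤ h i}, S.1 j.1) ∪ ⋃ v : S.1 i, ⋃ j, S.2 j v.1)
  let T : ℕ → (ι → Set V) × (ι → V → Set V) := fun n => Nat.rec
    (motive := fun _ => (ι → Set V) × (ι → V → Set V))
    (⟨fun i => Gd i {v | v ∈ C ∧ r v < h i + 1},
      fun i v => bd ∅ (Gd i {v | v ∈ C ∧ r v < h i + 1}) v⟩)
    (fun _ S => ⟨nx S, fun i v => S.2 i v ∪ bd (S.1 i) (nx S i) v⟩) n
  let X : ℕ → ι → Set V := fun n => (T n).1
  let B : ℕ → ι → V → Set V := fun n => (T n).2
  have hX0 : ∀ i, X 0 i = Gd i {v | v ∈ C ∧ r v < h i + 1} := fun i => rfl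
  have hB0 : ∀ i v, B 0 i v = bd ∅ (X 0 i) v := fun i v => rfl
  have hXs : ∀ n i, X (n + 1) i =
      Gd i ((⋃ j : {j // h j ≤ h i}, X n j.1) ∪ ⋃ v : X n i, ⋃ j, B n j v.1) := fun n i => rfl
  have hBs : ∀ n i v, B (n + 1) i v = B n i v ∪ bd (X n i) (X (n + 1) i) v := fun n i v => rfl
  -- invariants
  have hinv : ∀ n, (∀ i, X n i ⊆ C ∧ #(X n i) ≤ κ i ∧
      ∀ Y, X n i ⊆ Y → Y ⊆ C → #Y ≤ κ i → Free G (A ∪ X n i) (Y \ X n i) t) ∧
      ∀ i v, B n i v ⊆ C ∧ (B n i v).Finite := by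
    intro n
    induction n with
    | zero =>
      have h1 : ∀ i, X 0 i ⊆ C ∧ #(X 0 i) ≤ κ i ∧
          ∀ Y, X 0 i ⊆ Y → Y ⊆ C → #Y ≤ κ i → Free G (A ∪ X 0 i) (Y \ X 0 i) t := by
        intro i
        rw [hX0]
        exact (hGd i {v | v ∈ C ∧ r v < h i + 1}
          ⟨fun v hv => hv.1, (hrc _).trans (le_max_right _ _)⟩).2
      refine ⟨h1, fun i v => ⟨?_, ?_⟩⟩
      · rw [hB0]
        exact hbdC _ _ _ (Set.empty_subset _) (h1 i).1
      · rw [hB0]
        apply hbdf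
        have := hsmall (X 0 i) (h1 i).1 ((h1 i).2.1.trans_lt (hκlt i))
        simpa using this
    | succ n ih =>
      have hpre : ∀ i, ((⋃ j : {j // h j ≤ h i}, X n j.1) ∪ ⋃ v : X n i, ⋃ j, B n j v.1) ⊆ C ∧
          #((⋃ j : {j // h j ≤ h i}, X n j.1) ∪ ⋃ v : X n i, ⋃ j, B n j v.1 : Set V) ≤ κ i := by
        intro i
        constructor
        · apply Set.union_subset
          · exact Set.iUnion_subset fun j => (ih.1 j.1).1
          · exact Set.iUnion_subset fun v => Set.iUnion_subset fun j => (ih.2 j v.1).1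
        · refine (Cardinal.mk_union_le _ _).trans (Cardinal.add_le_of_le (hκ0 i) ?_ ?_)
          · apply mk_iUnion_le_of_le (hκ0 i)
            · exact (Cardinal.mk_subtype_le _).trans (hκι i)
            · intro j
              exact (ih.1 j.1).2.1.trans (hκmono _ _ j.2)
          · apply mk_iUnion_le_of_le (hκ0 i)
            · exact (ih.1 i).2.1
            · intro v
              apply mk_iUnion_le_of_le (hκ0 i)
              · exact hκι i
              · intro j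
                exact ((Cardinal.lt_aleph0_iff_set_finite.2 (ih.2 j v.1).2).le).trans (hκ0 i)
      have h1 : ∀ i, X (n + 1) i ⊆ C ∧ #(X (n + 1) i) ≤ κ i ∧
          ∀ Y, X (n + 1) i ⊆ Y → Y ⊆ C → #Y ≤ κ i →
            Free G (A ∪ X (n + 1) i) (Y \ X (n + 1) i) t := by
        intro i
        rw [hXs]
        exact (hGd i _ (hpre i)).2
      have hsub : ∀ i, X n i ⊆ X (n + 1) i := by
        intro i
        rw [hXs]
        refine Set.Subset.trans ?_ (hGd i _ (hpre i)).1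
        intro v hv
        left
        rw [Set.mem_iUnion]
        exact ⟨⟨i, le_rfl⟩, hv⟩
      refine ⟨h1, fun i v => ⟨?_, ?_⟩⟩
      · rw [hBs]
        exact Set.union_subset (ih.2 i v).1 (hbdC _ _ _ (ih.1 i).1 (h1 i).1)
      · rw [hBs]
        refine (ih.2 i v).2.union (hbdf _ _ _ ?_)
        exact (ih.1 i).2.2 _ (hsub i) (h1 i).1 (h1 i).2.1
  have hpre : ∀ n i, ((⋃ j : {j // h j ≤ h i}, X n j.1) ∪ ⋃ v : X n i, ⋃ j, B n j v.1) ⊆
      X (n + 1) i := by
    intro n i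
    rw [hXs]
    have hp : ((⋃ j : {j // h j ≤ h i}, X n j.1) ∪ ⋃ v : X n i, ⋃ j, B n j v.1) ⊆ C ∧
          #((⋃ j : {j // h j ≤ h i}, X n j.1) ∪ ⋃ v : X n i, ⋃ j, B n j v.1 : Set V) ≤ κ i := by
      have ih := hinv n
      constructor
      · apply Set.union_subset
        · exact Set.iUnion_subset fun j => (ih.1 j.1).1
        · exact Set.iUnion_subset fun v => Set.iUnion_subset fun j => (ih.2 j v.1).1
      · refine (Cardinal.mk_union_le _ _).trans (Cardinal.add_le_of_le (hκ0 i) ?_ ?_)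
        · apply mk_iUnion_le_of_le (hκ0 i)
          · exact (Cardinal.mk_subtype_le _).trans (hκι i)
          · intro j
            exact (ih.1 j.1).2.1.trans (hκmono _ _ j.2)
        · apply mk_iUnion_le_of_le (hκ0 i)
          · exact (ih.1 i).2.1
          · intro v
            apply mk_iUnion_le_of_le (hκ0 i)
            · exact hκι i
            · intro j
              exact ((Cardinal.lt_aleph0_iff_set_finite.2 (ih.2 j v.1).2).le).trans (hκ0 i)
    exact (hGd i _ hp).1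
  have hXle : ∀ n i j, h j ≤ h i → X n j ⊆ X (n + 1) i := by
    intro n i j hji v hv
    apply hpre n i
    left
    rw [Set.mem_iUnion]
    exact ⟨⟨j, hji⟩, hv⟩
  have hXmono : ∀ i, Monotone fun n => X n i := fun i =>
    monotone_nat_of_le_succ fun n => hXle n i i le_rfl
  have hBX : ∀ n i j v, v ∈ X n i → B n j v ⊆ X (n + 1) i := by
    intro n i j v hv w hw
    apply hpre n i
    right
    rw [Set.mem_iUnion]
    refine ⟨⟨v, hv⟩, ?_⟩
    rw [Set.mem_iUnion]
    exact ⟨j, hw⟩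
  have hBmono : ∀ j v, Monotone fun n => B n j v := fun j v =>
    monotone_nat_of_le_succ fun n => by
      change B n j v ⊆ B (n + 1) j v
      rw [hBs]
      exact Set.subset_union_left
  -- limit sets
  let W : ι → Set V := fun i => ⋃ n, X n i
  have hWmono : ∀ i j, h j ≤ h i → W j ⊆ W i := by
    intro i j hji v hv
    rw [Set.mem_iUnion] at hv ⊢
    obtain ⟨n, hn⟩ := hv
    exact ⟨n + 1, hXle n i j hji hn⟩
  have hWC : ∀ i, W i ⊆ C := fun i => Set.iUnion_subset fun n => ((hinv n).1 i).1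
  have hcover : ∀ v ∈ C, ∃ i, v ∈ W i := by
    intro v hv
    obtain ⟨i, hi⟩ := hcof (r v) (hr v hv)
    refine ⟨i, Set.mem_iUnion.2 ⟨0, ?_⟩⟩
    rw [hX0]
    apply (hGd i {v | v ∈ C ∧ r v < h i + 1}
          ⟨fun v hv => hv.1, (hrc _).trans (le_max_right _ _)⟩).1
    exact ⟨hv, lt_of_le_of_lt hi (lt_add_one _)⟩
  -- orders on `W i`
  have hord : ∀ i, ∃ σ : V → Ordinal.{u}, Function.Injective σ ∧
      (∀ v ∈ W i, {w | G.Adj v w ∧ (w ∈ A ∨ (w ∈ W i ∧ σ w < σ v))}.encard ≤ t) ∧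
      (∀ v ∈ W i, ∃ n, ∀ w ∈ W i, G.Adj v w → σ w < σ v → w ∈ B n i v) := by
    intro i
    let N : V → ℕ := fun v => sInf {n | v ∈ X n i}
    have hN : ∀ v ∈ W i, v ∈ X (N v) i := by
      intro v hv
      rw [Set.mem_iUnion] at hv
      exact Nat.sInf_mem (s := {n | v ∈ X n i}) hv
    have hN' : ∀ v n, v ∈ X n i → N v ≤ n := by
      intro v n hv
      exact Nat.sInf_le hv
    let Q : ℕ → V → Ordinal.{u} := fun n => Nat.casesOn (motive := fun _ => V → Ordinal.{u}) n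
      (R ∅ (X 0 i)) (fun m => R (X m i) (X (m + 1) i))
    have hQinj : ∀ n, Function.Injective (Q n) := by
      intro n
      rcases n with _ | m
      · exact hR1 _ _
      · exact hR1 _ _
    obtain ⟨σ, hσi, hσ⟩ := exists_lex' (fun v => (N v : Ordinal.{u}))
      (fun o => Q (Cardinal.toNat o.card)) (fun o => hQinj _)
    have hσ' : ∀ v w, σ v < σ w ↔ N v < N w ∨ (N v = N w ∧ Q (N w) v < Q (N w) w) := by
      intro v w
      rw [hσ v w]
      simp only [Nat.cast_lt, Nat.cast_inj, Ordinal.card_nat, Cardinal.toNat_natCast]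
    refine ⟨σ, hσi, ?_, ?_⟩
    · intro v hv
      have hNv := hN v hv
      rcases hn : N v with _ | m
      · rw [hn] at hNv
        have hF : Free G (A ∪ ∅) (X 0 i \ ∅) t := by
          have := hsmall (X 0 i) ((hinv 0).1 i).1 (((hinv 0).1 i).2.1.trans_lt (hκlt i))
          simpa using this
        refine (Set.encard_le_encard ?_).trans (hR2 ∅ (X 0 i) hF v ⟨hNv, Set.notMem_empty _⟩)
        rintro w ⟨h1, h2⟩
        refine ⟨h1, ?_⟩
        rcases h2 with h2 | ⟨h2, h3⟩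
        · exact Or.inl (Or.inl h2)
        · right
          rw [hσ', hn] at h3
          rcases h3 with h3 | ⟨h3, h4⟩
          · exact absurd h3 (Nat.not_lt_zero _)
          · refine ⟨⟨?_, Set.notMem_empty _⟩, h4⟩
            have := hN w h2
            rwa [h3] at this
      · rw [hn] at hNv
        have hvX : v ∉ X m i := by
          intro hcon
          have := hN' v m hcon
          omega
        have hF : Free G (A ∪ X m i) (X (m + 1) i \ X m i) t :=
          ((hinv m).1 i).2.2 _ (hXmono i (Nat.le_succ m)) ((hinv (m + 1)).1 i).1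
            ((hinv (m + 1)).1 i).2.1
        refine (Set.encard_le_encard ?_).trans (hR2 (X m i) (X (m + 1) i) hF v ⟨hNv, hvX⟩)
        rintro w ⟨h1, h2⟩
        refine ⟨h1, ?_⟩
        rcases h2 with h2 | ⟨h2, h3⟩
        · exact Or.inl (Or.inl h2)
        · rw [hσ', hn] at h3
          rcases h3 with h3 | ⟨h3, h4⟩
          · left
            right
            exact hXmono i (Nat.lt_succ_iff.1 h3) (hN w h2)
          · right
            refine ⟨⟨?_, ?_⟩, h4⟩
            · have := hN w h2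
              rwa [h3] at this
            · intro hcon
              have := hN' w m hcon
              omega
    · intro v hv
      have hNv := hN v hv
      refine ⟨N v, ?_⟩
      intro w hw hvw hlt
      rw [hσ'] at hlt
      rcases hn : N v with _ | m
      · rw [hn] at hlt hNv
        rw [hB0]
        rcases hlt with hlt | ⟨h3, h4⟩
        · exact absurd hlt (Nat.not_lt_zero _)
        · refine ⟨hvw, ⟨hNv, Set.notMem_empty _⟩, Or.inr ⟨⟨?_, Set.notMem_empty _⟩, h4⟩⟩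
          have := hN w hw
          rwa [h3] at this
      · rw [hn] at hlt hNv
        have hvX : v ∉ X m i := by
          intro hcon
          have := hN' v m hcon
          omega
        rw [hBs]
        right
        refine ⟨hvw, ⟨hNv, hvX⟩, ?_⟩
        rcases hlt with hlt | ⟨h3, h4⟩
        · left
          exact hXmono i (Nat.lt_succ_iff.1 hlt) (hN w hw)
        · right
          refine ⟨⟨?_, ?_⟩, h4⟩
          · have := hN w hw
            rwa [h3] at this
          · intro hcon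
            have := hN' w m hcon
            omega
  -- blocks
  let β : V → Ordinal.{u} := fun v => sInf {o | ∃ i, o = h i ∧ v ∈ W i}
  have hβ1 : ∀ v ∈ C, ∃ i, β v = h i ∧ v ∈ W i := by
    intro v hv
    obtain ⟨i, hi⟩ := hcover v hv
    exact csInf_mem (s := {o | ∃ i, o = h i ∧ v ∈ W i}) ⟨h i, i, rfl, hi⟩
  have hβ2 : ∀ v i, v ∈ W i → β v ≤ h i := by
    intro v i hv
    exact csInf_le' (s := {o | ∃ i, o = h i ∧ v ∈ W i}) ⟨i, rfl, hv⟩
  apply Free.blocks β
  intro o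
  by_cases ho : ∃ i, o = h i
  · obtain ⟨i, rfl⟩ := ho
    obtain ⟨σ, hσi, hσ1, hσ2⟩ := hord i
    let U : Set V := {v | ∃ j, h j < h i ∧ v ∈ W j}
    have hUW : U ⊆ W i := by
      rintro v ⟨j, hj, hv⟩
      exact hWmono i j hj.le hv
    have hcl := Free.closed (B := U) hσi hσ1 hUW (by
      rintro v ⟨j, hj, hv⟩ w hw hvw hlt
      refine ⟨j, hj, ?_⟩
      obtain ⟨n, hn⟩ := hσ2 v (hWmono i j hj.le hv)
      have h1 := hn w hw hvw hlt
      obtain ⟨m, hm⟩ := Set.mem_iUnion.1 hv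
      have h2 : w ∈ B (max n m) i v := hBmono i v (le_max_left n m) h1
      have h3 : v ∈ X (max n m) j := hXmono j (le_max_right n m) hm
      exact Set.mem_iUnion.2 ⟨max n m + 1, hBX (max n m) j i v h3 h2⟩)
    refine hcl.mono (fun _ _ _ h _ => h) ?_ ?_ le_rfl
    · rintro w (hw | ⟨hw, hw2⟩)
      · exact Or.inl hw
      · right
        obtain ⟨j, hj, hj2⟩ := hβ1 w hw
        exact ⟨j, by rw [← hj]; exact hw2, hj2⟩
    · rintro w ⟨hw, hw2⟩
      obtain ⟨j, hj, hj2⟩ := hβ1 w hw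
      refine ⟨hWmono i j (by rw [← hj, hw2]) hj2, ?_⟩
      rintro ⟨j', hj', hj2'⟩
      have := hβ2 w j' hj2'
      rw [hw2] at this
      exact absurd hj' (not_lt.2 this)
  · apply free_of_isolated
    rintro v ⟨hv, hv2⟩
    obtain ⟨i, hi, _⟩ := hβ1 v hv
    exact absurd ⟨i, hv2.symm.trans hi⟩ ho

theorem good_all (s : ℕ) (G : SimpleGraph V) : ∀ (κ : Cardinal.{u}) (A C : Set V),
    Disjoint A C → #C = κ → ¬ Free G A C (s + 1) → Good G A C s := by
  intro κ
  induction κ using WellFoundedLT.induction with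
  | ind κ ih =>
    intro A C hAC hC h
    by_cases hsmall : ∀ C' ⊆ C, #C' < κ → Free G A C' (s + 1)
    · rcases lt_or_ge κ ℵ₀ with hκ | hκ
      · refine Good.of_finite hAC subset_rfl ?_ h
        rw [← Cardinal.lt_aleph0_iff_set_finite, hC]
        exact hκ
      · rcases hκ.eq_or_lt with hκ' | hκ'
        · refine Good.of_countable hAC ?_ h
          rw [← Cardinal.le_aleph0_iff_set_countable, hC, ← hκ']
        · rcases Cardinal.isRegular_or_isSingular hκ with hr | hs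
          · exact Good.of_regular hAC hr hκ' hC
              (fun A' C' hAC' hC' hnf => ih (#C') hC' A' C' hAC' rfl hnf) hsmall h
          · exfalso
            apply h
            subst hC
            exact singular_free hs hsmall
    · push Not at hsmall
      obtain ⟨C', hC', hlt, hnf⟩ := hsmall
      exact Good.extend hAC hC' (ih (#C') hlt A C' (hAC.mono_right hC') rfl hnf)

end


theorem col_mem {V : Type u} (G : SimpleGraph V) : ∃ r : V → V → Prop, IsWellOrder V r ∧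
    ∀ x : V, #{y : V // G.Adj x y ∧ r y x} < col G := by
  have : col G ∈ {κ : Cardinal.{u} | ∃ r : V → V → Prop, IsWellOrder V r ∧
      ∀ x : V, #{y : V // G.Adj x y ∧ r y x} < κ} := by
    apply csInf_mem
    refine ⟨succ #V, WellOrderingRel, inferInstance, fun x => ?_⟩
    exact Order.lt_succ_iff.2 (Cardinal.mk_subtype_le _)
  exact this

theorem col_le {V : Type u} (G : SimpleGraph V) {κ : Cardinal.{u}} (r : V → V → Prop)
    (hr : IsWellOrder V r) (h : ∀ x : V, #{y : V // G.Adj x y ∧ r y x} < κ) : col G ≤ κ :=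
  csInf_le' ⟨r, hr, h⟩

theorem encard_le_iff {V : Type u} (S : Set V) (k : ℕ) : S.encard ≤ k ↔ #S ≤ k := by
  rw [Set.encard, ENat.card]
  exact Cardinal.toENat_le_natCast

theorem col_le_iff {V : Type u} (G : SimpleGraph V) (k : ℕ) :
    col G ≤ ((k + 1 : ℕ) : Cardinal.{u}) ↔ Free G ∅ Set.univ k := by
  constructor
  · intro h
    obtain ⟨r, hr, hx⟩ := col_mem G
    refine ⟨fun v => Ordinal.typein r v, Ordinal.typein_injective r, fun v _ => ?_⟩
    rw [encard_le_iff]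
    have h1 := (hx v).trans_le h
    rw [Nat.cast_succ, ← Cardinal.succ_natCast, Order.lt_succ_iff] at h1
    refine le_trans (Cardinal.mk_le_mk_of_subset ?_) h1
    rintro w ⟨h2, h3⟩
    refine ⟨h2, ?_⟩
    rcases h3 with h3 | ⟨_, h3⟩
    · exact absurd h3 (Set.notMem_empty _)
    · exact (Ordinal.typein_lt_typein r).1 h3
  · rintro ⟨ρ, hρ, h⟩
    let f : (InvImage (· < ·) ρ) ↪r ((· < ·) : Ordinal.{u} → Ordinal.{u} → Prop) :=
      ⟨⟨ρ, hρ⟩, Iff.rfl⟩
    refine col_le G (InvImage (· < ·) ρ) f.isWellOrder fun x => ?_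
    rw [Nat.cast_succ, ← Cardinal.succ_natCast, Order.lt_succ_iff]
    have h1 := h x (Set.mem_univ x)
    rw [encard_le_iff] at h1
    refine le_trans (Cardinal.mk_le_mk_of_subset ?_) h1
    rintro w ⟨h2, h3⟩
    exact ⟨h2, Or.inr ⟨Set.mem_univ _, h3⟩⟩

theorem col_iso_le {V W : Type u} {G : SimpleGraph V} {H : SimpleGraph W} (e : G ≃g H) :
    col G ≤ col H := by
  obtain ⟨r, hr, hx⟩ := col_mem H
  let f : (fun a b => r (e a) (e b)) ↪r r := ⟨e.toEquiv.toEmbedding, Iff.rfl⟩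
  refine col_le G (fun a b => r (e a) (e b)) f.isWellOrder fun x => ?_
  refine lt_of_le_of_lt ?_ (hx (e x))
  refine Cardinal.mk_le_of_injective (f := fun y : {y : V // G.Adj x y ∧ r (e y) (e x)} =>
    (⟨e y.1, e.map_rel_iff.2 y.2.1, y.2.2⟩ : {y : W // H.Adj (e x) y ∧ r y (e x)})) ?_
  intro a b hab
  have := congrArg Subtype.val hab
  exact Subtype.ext (e.injective this)

theorem col_iso {V W : Type u} {G : SimpleGraph V} {H : SimpleGraph W} (e : G ≃g H) :
    col G = col H :=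
  le_antisymm (col_iso_le e) (col_iso_le e.symm)

theorem col_toSubgraph {V : Type u} {G H : SimpleGraph V} (h : H ≤ G) :
    col (SimpleGraph.toSubgraph H h).coe = col H := by
  apply col_iso
  exact ⟨Equiv.Set.univ V, Iff.rfl⟩

theorem col_subgraph {V : Type u} (G : SimpleGraph V) (n : ℕ) (hn : (n : Cardinal.{u}) ≤ col G) :
    ∃ G' : G.Subgraph, col G'.coe = n := by
  rcases n with _ | _ | s
  · refine ⟨⊥, ?_⟩
    have h1 : col (⊥ : G.Subgraph).coe ≤ 0 :=
      col_le _ WellOrderingRel inferInstance fun x =>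
        absurd (SimpleGraph.Subgraph.verts_bot ▸ x.2 : x.1 ∈ (∅ : Set V)) (Set.notMem_empty _)
    simpa using h1
  · refine ⟨SimpleGraph.toSubgraph ⊥ bot_le, ?_⟩
    rw [col_toSubgraph]
    have hV : Nonempty V := by
      by_contra hcon
      rw [not_nonempty_iff] at hcon
      have h1 : col G ≤ 0 := col_le _ WellOrderingRel inferInstance fun x => (hcon.false x).elim
      have h2 := hn.trans h1
      norm_num at h2
    have h1 : col (⊥ : SimpleGraph V) ≤ ((0 + 1 : ℕ) : Cardinal.{u}) := by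
      rw [col_le_iff]
      exact free_of_isolated (by simp)
    refine le_antisymm h1 ?_
    obtain ⟨r, hr, hx⟩ := col_mem (⊥ : SimpleGraph V)
    have h2 := lt_of_le_of_lt (zero_le (a := _)) (hx hV.some)
    rw [Nat.cast_succ, Nat.cast_zero, zero_add]
    exact Cardinal.one_le_iff_pos.2 h2
  · rcases hn.eq_or_lt with he | hlt
    · refine ⟨SimpleGraph.toSubgraph G le_rfl, ?_⟩
      rw [col_toSubgraph, ← he]
    · have h1 : ¬ Free G ∅ Set.univ (s + 1) := by
        rw [← col_le_iff]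
        exact not_le.2 hlt
      obtain ⟨H, hH, hF, hnF⟩ := good_all s G _ ∅ Set.univ (Set.empty_disjoint _) rfl h1
      refine ⟨SimpleGraph.toSubgraph H hH, ?_⟩
      rw [col_toSubgraph]
      rw [← col_le_iff] at hF hnF
      refine le_antisymm hF ?_
      rw [Nat.cast_succ, ← Cardinal.succ_natCast]
      exact Order.succ_le_of_lt (not_le.1 hnF)

theorem result (n : ℕ) (V : Type u) (G : SimpleGraph V) (h : col G = (n : Cardinal.{u}) + 1) :
    ∃ G' : G.Subgraph, col G'.coe = (n : Cardinal.{u}) :=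
  col_subgraph G n (by rw [h]; exact le_self_add)

end Pool.Agent.Results.MP_279ba3_co.ColoringNumberStep
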